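import Pool.Agent.Q57.MF.Loc2

/-!
# Residue classes with a value of valuation one
-/

set_option autoImplicit false

namespace Pool.Agent.Q57.MF

open Polynomial NumberField IsDedekindDomain

variable {K : Type} [Field K] [NumberField K]

theorem val_int_le (w : HeightOneSpectrum (𝓞 K)) (z : ℤ) : w.valuation K (z : K) ≤ 1 := by
  have h1 : w.valuation K ((z : 𝓞 K) : K) ≤ 1 := w.valuation_le_one (K := K) (z : 𝓞 K)
  have h2 : ((z : 𝓞 K) : K) = (z : K) := by simp
  rwa [h2] at h1

theorem val_int_eq {w : HeightOneSpectrum (𝓞 K)} {p : ℕ} (hp : p.Prime)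
    (hw : w.valuation K (p : K) < 1) {z : ℤ} (hz : ¬ (p : ℤ) ∣ z) : w.valuation K (z : K) = 1 := by
  refine le_antisymm (val_int_le w z) (not_lt.1 fun hlt => ?_)
  obtain ⟨a, b, hab⟩ := (Nat.prime_iff_prime_int.1 hp).coprime_iff_not_dvd.2 hz
  have h1 : (a : K) * (p : K) + (b : K) * (z : K) = 1 := by exact_mod_cast congrArg (Int.cast) hab
  have h2 : w.valuation K ((a : K) * (p : K) + (b : K) * (z : K)) < 1 := by
    refine (w.valuation K).map_add_lt ?_ ?_
    · rw [map_mul]
      exact (mul_le_mul' (val_int_le w a) le_rfl).trans_lt ((one_mul _).trans_lt hw)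
    · rw [map_mul]
      exact (mul_le_mul' (val_int_le w b) le_rfl).trans_lt ((one_mul _).trans_lt hlt)
  rw [h1, map_one] at h2
  exact lt_irrefl _ h2

/-- the coefficients are integral at `w` -/
def IntCoeff (w : HeightOneSpectrum (𝓞 K)) (g : K[X]) : Prop := ∀ k, w.valuation K (g.coeff k) ≤ 1

theorem finite_not_intCoeff (g : K[X]) :
    {w : HeightOneSpectrum (𝓞 K) | ¬ IntCoeff w g}.Finite := by
  refine (Set.Finite.biUnion g.support.finite_toSet fun k _ => finite_pole (g.coeff k)).subset ?_
  intro w hw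
  simp only [IntCoeff, not_forall, not_le, Set.mem_ofPred_eq] at hw
  obtain ⟨k, hk⟩ := hw
  have h1 : g.coeff k ≠ 0 := by
    intro h
    rw [h, map_zero] at hk
    exact not_lt_zero hk
  exact Set.mem_biUnion (Finset.mem_coe.2 (mem_support_iff.2 h1)) hk

theorem exists_lift {w : HeightOneSpectrum (𝓞 K)} {g : K[X]} (hg : IntCoeff w g) :
    ∃ G : (w.valuation K).integer[X], G.map (w.valuation K).integer.subtype = g := by
  have h1 : g ∈ Polynomial.lifts (w.valuation K).integer.subtype := by
    rw [Polynomial.lifts_iff_coeff_lifts]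
    intro k
    exact ⟨⟨g.coeff k, hg k⟩, rfl⟩
  exact (Polynomial.mem_lifts _).1 h1

theorem eval_lift {w : HeightOneSpectrum (𝓞 K)} (G : (w.valuation K).integer[X])
    (a : (w.valuation K).integer) :
    (G.map (w.valuation K).integer.subtype).eval (a : K) = ((G.eval a : (w.valuation K).integer) : K)
    := by
  rw [eval_map]
  exact eval₂_at_apply (w.valuation K).integer.subtype a

theorem val_eval_sub {w : HeightOneSpectrum (𝓞 K)} {g : K[X]} (hg : IntCoeff w g) {a b : K}
    (ha : w.valuation K a ≤ 1) (hb : w.valuation K b ≤ 1) :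
    w.valuation K (g.eval a - g.eval b) ≤ w.valuation K (a - b) := by
  obtain ⟨G, rfl⟩ := exists_lift hg
  obtain ⟨c, hc⟩ := Polynomial.sub_dvd_eval_sub (⟨a, ha⟩ : (w.valuation K).integer) ⟨b, hb⟩ G
  have h1 : (G.map (w.valuation K).integer.subtype).eval a -
      (G.map (w.valuation K).integer.subtype).eval b = (a - b) * (c : K) := by
    have h2 := congrArg (fun t : (w.valuation K).integer => (t : K)) hc
    push_cast at h2
    rw [← eval_lift, ← eval_lift] at h2
    exact h2
  rw [h1, map_mul]
  exact (mul_le_mul' le_rfl c.2).trans (mul_one _).le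

theorem exists_taylor {w : HeightOneSpectrum (𝓞 K)} {g : K[X]} (hg : IntCoeff w g) {a y : K}
    (ha : w.valuation K a ≤ 1) (hy : w.valuation K y ≤ 1) :
    ∃ k : K, w.valuation K k ≤ 1 ∧
      g.eval (a + y) = g.eval a + (derivative g).eval a * y + k * y ^ 2 := by
  obtain ⟨G, rfl⟩ := exists_lift hg
  obtain ⟨k, hk⟩ := Polynomial.binomExpansion G (⟨a, ha⟩ : (w.valuation K).integer) ⟨y, hy⟩
  refine ⟨k, k.2, ?_⟩
  have h2 := congrArg (fun t : (w.valuation K).integer => (t : K)) hk
  push_cast at h2
  rw [← eval_lift, ← eval_lift, ← eval_lift, ← derivative_map] at h2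
  exact h2

theorem le_exp_neg_two {x : WithZero (Multiplicative ℤ)} (h : x < 1) (h' : x ≠ WithZero.exp (-1)) :
    x ≤ WithZero.exp (-2) := by
  rcases eq_or_ne x 0 with rfl | hx
  · exact zero_le
  · obtain ⟨k, rfl⟩ : ∃ k, x = WithZero.exp k := ⟨WithZero.log x, (WithZero.exp_log hx).symm⟩
    rw [← WithZero.exp_zero, WithZero.exp_lt_exp] at h
    have h1 : k ≠ -1 := by
      rintro rfl
      exact h' rfl
    rw [WithZero.exp_le_exp]
    omega

/-- Let `w` be unramified above `p`. If `g` has a simple zero `z` modulo `w`, a rational integer, then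
for `p - 1` residue classes modulo `p ^ 2` the valuation of `g (a)` is one, and `a` is congruent to `z`. -/
theorem exists_classes {w : HeightOneSpectrum (𝓞 K)} {p : ℕ} (hp : p.Prime)
    (hw : w.valuation K (p : K) = WithZero.exp (-1)) {g : K[X]} (hg : IntCoeff w g) {z : ℤ}
    (h0 : w.valuation K (g.eval (z : K)) < 1)
    (h1 : w.valuation K ((derivative g).eval (z : K)) = 1) :
    ∃ Ω : Finset (ZMod (p ^ 2)), p - 1 ≤ Ω.card ∧ ∀ a : ℤ, (a : ZMod (p ^ 2)) ∈ Ω →
      w.valuation K (g.eval (a : K)) = WithZero.exp (-1) ∧ w.valuation K ((a : K) - (z : K)) < 1 := by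
  classical
  have hlt : w.valuation K (p : K) < 1 := by
    rw [hw, ← WithZero.exp_zero, WithZero.exp_lt_exp]
    norm_num
  have hpz : (p : ℤ) ≠ 0 := by exact_mod_cast hp.ne_zero
  have hpt : ∀ t : ℕ, w.valuation K ((p : K) * (t : K)) ≤ WithZero.exp (-1) := by
    intro t
    have h2 := val_int_le w (t : ℤ)
    rw [Int.cast_natCast] at h2
    rw [map_mul, hw]
    exact (mul_le_mul' le_rfl h2).trans (mul_one _).le
  have hexp : (WithZero.exp (-1) : WithZero (Multiplicative ℤ)) < 1 := by
    rw [← hw]
    exact hlt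
  have hsmall : ∀ t : ℕ, w.valuation K (g.eval ((z : K) + (p : K) * (t : K))) < 1 := by
    intro t
    have h2 := val_eval_sub hg (a := (z : K) + (p : K) * (t : K)) (b := (z : K))
      ((w.valuation K).map_add_le (val_int_le w z) ((hpt t).trans hexp.le)) (val_int_le w z)
    rw [add_sub_cancel_left] at h2
    have h3 := (w.valuation K).map_add_lt (h2.trans_lt ((hpt t).trans_lt hexp)) h0
    rwa [sub_add_cancel] at h3
  have hdist : ∀ t t' : ℕ,
      w.valuation K (g.eval ((z : K) + (p : K) * (t : K))) ≤ WithZero.exp (-2) →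
      w.valuation K (g.eval ((z : K) + (p : K) * (t' : K))) ≤ WithZero.exp (-2) →
      (p : ℤ) ∣ (t : ℤ) - (t' : ℤ) := by
    intro t t' ht ht'
    by_contra hcon
    obtain ⟨k, hk, hk'⟩ := exists_taylor hg (val_int_le w z) ((hpt t).trans hexp.le)
    obtain ⟨k₂, hk₂, hk₂'⟩ := exists_taylor hg (val_int_le w z) ((hpt t').trans hexp.le)
    have hsq : ∀ (k : K) (t : ℕ), w.valuation K k ≤ 1 →
        w.valuation K (k * ((p : K) * (t : K)) ^ 2) ≤ WithZero.exp (-2) := by
      intro k t hk
      rw [map_mul, map_pow]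
      refine (mul_le_mul' hk (pow_le_pow_left' (hpt t) 2)).trans ?_
      rw [one_mul, ← WithZero.exp_nsmul]
      norm_num
    have h2 : (derivative g).eval (z : K) * ((p : K) * ((((t : ℤ) - (t' : ℤ) : ℤ)) : K)) =
        g.eval ((z : K) + (p : K) * (t : K)) - g.eval ((z : K) + (p : K) * (t' : K)) -
          k * ((p : K) * (t : K)) ^ 2 + k₂ * ((p : K) * (t' : K)) ^ 2 := by
      rw [hk', hk₂']
      push_cast
      ring
    have h3 : w.valuation K ((derivative g).eval (z : K) *
        ((p : K) * ((((t : ℤ) - (t' : ℤ) : ℤ)) : K))) ≤ WithZero.exp (-2) := by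
      rw [h2]
      exact (w.valuation K).map_add_le ((w.valuation K).map_sub_le
        ((w.valuation K).map_sub_le ht ht') (hsq k t hk)) (hsq k₂ t' hk₂)
    rw [map_mul, map_mul, h1, val_int_eq hp hlt hcon, hw, one_mul, mul_one,
      WithZero.exp_le_exp] at h3
    norm_num at h3
  set G := (Finset.range p).filter
    (fun t : ℕ => w.valuation K (g.eval ((z : K) + (p : K) * (t : K))) = WithZero.exp (-1)) with hG
  refine ⟨G.image (fun t : ℕ => ((z + p * t : ℤ) : ZMod (p ^ 2))), ?_, ?_⟩
  · rw [Finset.card_image_of_injOn]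
    · have h2 : G.card + ((Finset.range p).filter (fun t : ℕ =>
          ¬ w.valuation K (g.eval ((z : K) + (p : K) * (t : K))) = WithZero.exp (-1))).card = p := by
        have h := Finset.card_filter_add_card_filter_not (s := Finset.range p)
          (fun t : ℕ => w.valuation K (g.eval ((z : K) + (p : K) * (t : K))) = WithZero.exp (-1))
        rw [Finset.card_range] at h
        exact h
      have h3 : ((Finset.range p).filter (fun t : ℕ =>
          ¬ w.valuation K (g.eval ((z : K) + (p : K) * (t : K))) = WithZero.exp (-1))).card ≤ 1 := by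
        rw [Finset.card_le_one]
        intro t ht t' ht'
        rw [Finset.mem_filter, Finset.mem_range] at ht ht'
        have h4 := hdist t t' (le_exp_neg_two (hsmall t) ht.2) (le_exp_neg_two (hsmall t') ht'.2)
        have h5 := Int.eq_zero_of_abs_lt_dvd h4 (by rw [abs_lt]; omega)
        omega
      omega
    · intro t ht t' ht' h
      rw [Finset.mem_coe, hG, Finset.mem_filter, Finset.mem_range] at ht ht'
      beta_reduce at h
      rw [ZMod.intCast_eq_intCast_iff_dvd_sub] at h
      have h4 : (p : ℤ) * p ∣ (p : ℤ) * ((t' : ℤ) - t) := by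
        have h5 : (z + p * t' : ℤ) - (z + p * t) = (p : ℤ) * ((t' : ℤ) - t) := by ring
        rw [h5] at h
        push_cast at h
        rwa [sq] at h
      have h5 := Int.dvd_of_mul_dvd_mul_left hpz h4
      have h6 := Int.eq_zero_of_abs_lt_dvd h5 (by rw [abs_lt]; omega)
      omega
  · intro a ha
    rw [Finset.mem_image] at ha
    obtain ⟨t, ht, hta⟩ := ha
    rw [hG, Finset.mem_filter] at ht
    rw [ZMod.intCast_eq_intCast_iff_dvd_sub] at hta
    obtain ⟨c, hc⟩ := hta
    have h2 : (a : K) - ((z : K) + (p : K) * (t : K)) = (p : K) ^ 2 * (c : K) := by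
      have h3 := congrArg (Int.cast : ℤ → K) hc
      push_cast at h3
      exact h3
    have h3 : w.valuation K ((a : K) - ((z : K) + (p : K) * (t : K))) ≤ WithZero.exp (-2) := by
      rw [h2, map_mul, map_pow, hw]
      refine (mul_le_mul' le_rfl (val_int_le w c)).trans ?_
      rw [mul_one, ← WithZero.exp_nsmul]
      norm_num
    have h21 : (WithZero.exp (-2) : WithZero (Multiplicative ℤ)) < WithZero.exp (-1) := by
      rw [WithZero.exp_lt_exp]
      norm_num
    constructor
    · have h4 := (val_eval_sub hg (val_int_le w a) ((w.valuation K).map_add_le (val_int_le w z)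
        ((hpt t).trans hexp.le))).trans h3
      have h5 : g.eval (a : K) = (g.eval (a : K) - g.eval ((z : K) + (p : K) * (t : K))) +
          g.eval ((z : K) + (p : K) * (t : K)) := by ring
      rw [h5, (w.valuation K).map_add_eq_of_lt_right]
      · exact ht.2
      · rw [ht.2]
        exact h4.trans_lt h21
    · have h5 : (a : K) - (z : K) = ((a : K) - ((z : K) + (p : K) * (t : K))) + (p : K) * (t : K) := by
        ring
      rw [h5]
      exact (w.valuation K).map_add_lt (h3.trans_lt (h21.trans hexp)) ((hpt t).trans_lt hexp)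

end Pool.Agent.Q57.MF
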