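import Pool.Agent.Q57.MF.Main2
import Pool.Agent.H755R5.Kum.Final2

/-!
# Conic bundles over the rational numbers
-/

set_option autoImplicit false

namespace Pool.Agent.Q57.MF

open Polynomial NumberField IsDedekindDomain

theorem exists_place {p : ℕ} (hp : p.Prime) :
    ∃ w : HeightOneSpectrum (𝓞 ℚ), w.valuation ℚ (p : ℚ) = WithZero.exp (-1) := by
  have hne : (p : 𝓞 ℚ) ≠ 0 := Nat.cast_ne_zero.2 hp.ne_zero
  have hprime : Prime (p : 𝓞 ℚ) := by
    rw [← MulEquiv.prime_iff Rat.ringOfIntegersEquiv]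
    have h1 : Rat.ringOfIntegersEquiv (p : 𝓞 ℚ) = (p : ℤ) := map_natCast _ p
    rw [h1]
    exact Nat.prime_iff_prime_int.1 hp
  let w : HeightOneSpectrum (𝓞 ℚ) := ⟨Ideal.span {(p : 𝓞 ℚ)}, (Ideal.span_singleton_prime hne).2 hprime,
    by simpa using hp.ne_zero⟩
  refine ⟨w, ?_⟩
  have h1 : w.intValuation (p : 𝓞 ℚ) = WithZero.exp (-1) := w.intValuation_singleton hne rfl
  have h2 := w.valuation_of_algebraMap (K := ℚ) (p : 𝓞 ℚ)
  rw [h1] at h2
  have h3 : algebraMap (𝓞 ℚ) ℚ (p : 𝓞 ℚ) = (p : ℚ) := map_natCast _ p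
  rw [← h3]
  exact h2

theorem val_rat {w : HeightOneSpectrum (𝓞 ℚ)} {p : ℕ} (hp : p.Prime)
    (hw : w.valuation ℚ (p : ℚ) < 1) {θ : ℚ} (hθ : w.valuation ℚ θ ≤ 1) : ¬ (p : ℤ) ∣ θ.den := by
  intro hd
  have hn : ¬ (p : ℤ) ∣ θ.num := by
    intro hn
    have h1 : p ∣ θ.num.natAbs := Int.natCast_dvd.1 hn
    have h2 : p ∣ θ.den := Int.natCast_dvd_natCast.1 hd
    have h3 := Nat.dvd_gcd h1 h2
    rw [θ.reduced] at h3
    exact hp.one_lt.ne' (Nat.dvd_one.1 h3)
  obtain ⟨k, hk⟩ := hd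
  have h1 : w.valuation ℚ (θ.den : ℚ) < 1 := by
    have h2 : (θ.den : ℚ) = (p : ℚ) * (k : ℚ) := by exact_mod_cast congrArg (Int.cast : ℤ → ℚ) hk
    rw [h2, map_mul]
    exact (mul_le_mul' le_rfl (val_int_le w k)).trans_lt ((mul_one _).trans_lt hw)
  have h2 : (θ.num : ℚ) = θ * (θ.den : ℚ) := (Rat.mul_den_eq_num θ).symm
  have h3 := congrArg (w.valuation ℚ) h2
  rw [val_int_eq hp hw hn, map_mul] at h3
  have h4 : w.valuation ℚ θ * w.valuation ℚ (θ.den : ℚ) < 1 :=
    (mul_le_mul' hθ le_rfl).trans_lt ((one_mul _).trans_lt h1)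
  rw [← h3] at h4
  exact lt_irrefl _ h4

theorem no_root {w : HeightOneSpectrum (𝓞 ℚ)} {p : ℕ} (hp : p.Prime)
    (hw : w.valuation ℚ (p : ℚ) < 1) {η : ℤ} (hη : ¬ ∃ t : ZMod p, t ^ 2 = (η : ZMod p)) {θ : ℚ}
    (hθ : w.valuation ℚ θ ≤ 1) : ¬ w.valuation ℚ (θ ^ 2 - (η : ℚ)) < 1 := by
  intro hlt
  have : Fact p.Prime := ⟨hp⟩
  have hd := val_rat hp hw hθ
  have h1 : w.valuation ℚ ((θ.num ^ 2 - η * θ.den ^ 2 : ℤ) : ℚ) < 1 := by
    have h2 : ((θ.num ^ 2 - η * θ.den ^ 2 : ℤ) : ℚ) = (θ ^ 2 - (η : ℚ)) * ((θ.den : ℤ) : ℚ) ^ 2 := by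
      have h3 : (θ.num : ℚ) = θ * (θ.den : ℚ) := (Rat.mul_den_eq_num θ).symm
      push_cast
      rw [h3]
      ring
    rw [h2, map_mul, map_pow, val_int_eq hp hw hd, one_pow, mul_one]
    exact hlt
  have h2 : (p : ℤ) ∣ (θ.num ^ 2 - η * θ.den ^ 2 : ℤ) := by
    by_contra hcon
    rw [val_int_eq hp hw hcon] at h1
    exact lt_irrefl _ h1
  have h3 : ((θ.num ^ 2 - η * θ.den ^ 2 : ℤ) : ZMod p) = 0 := (ZMod.intCast_zmod_eq_zero_iff_dvd _ p).2 h2
  have h4 : ((θ.den : ℤ) : ZMod p) ≠ 0 := by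
    rw [Ne, ZMod.intCast_zmod_eq_zero_iff_dvd]
    exact hd
  push_cast at h3 h4
  refine hη ⟨(θ.num : ZMod p) / (θ.den : ZMod p), ?_⟩
  rw [div_pow, div_eq_iff (pow_ne_zero 2 h4)]
  linear_combination h3

theorem many_conic {m g : ℚ[X]} {c : ℚ} (hm : ¬ ∃ t : ℚ, t ^ 2 = m.eval c) (hg : g.eval c = 0)
    (hg' : (derivative g).eval c ≠ 0) :
    ManyWithoutZero g (fun _ : Fin 1 => (X ^ 2 - C m : ℚ[X][X])) := by
  classical
  set η : ℤ := (m.eval c).num * (m.eval c).den with hηdef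
  have hηm : (η : ℚ) = ((m.eval c).den : ℚ) ^ 2 * m.eval c := by
    have h1 : ((m.eval c).num : ℚ) = m.eval c * ((m.eval c).den : ℚ) := (Rat.mul_den_eq_num _).symm
    rw [hηdef]
    push_cast
    rw [h1]
    ring
  have hη : ¬ ∃ t : ℤ, t ^ 2 = η := by
    rintro ⟨t, ht⟩
    refine hm ⟨(t : ℚ) / ((m.eval c).den : ℚ), ?_⟩
    have h1 : ((m.eval c).den : ℚ) ≠ 0 := by exact_mod_cast (m.eval c).den_nz
    rw [div_pow, div_eq_iff (pow_ne_zero 2 h1), mul_comm (m.eval c), ← hηm, ← ht]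
    push_cast
    ring
  set C₀ : Set (HeightOneSpectrum (𝓞 ℚ)) := {w | ¬ IntCoeff w g} ∪ {w | ¬ IntCoeff w (derivative g)} ∪
    {w | 1 < w.valuation ℚ c} ∪ {w | 1 < w.valuation ℚ ((derivative g).eval c)⁻¹} ∪
    {w | ¬ IntCoeff w m} with hC₀
  have hC₀fin : C₀.Finite :=
    ((((finite_not_intCoeff g).union (finite_not_intCoeff _)).union (finite_pole c)).union
      (finite_pole _)).union (finite_not_intCoeff m)
  set E : Set ℕ := ⋃ w ∈ C₀, {p | p.Prime ∧ w.valuation ℚ (p : ℚ) < 1} with hE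
  have hEfin : E.Finite := by
    refine Set.Finite.biUnion hC₀fin fun w _ => Set.Subsingleton.finite ?_
    rintro p ⟨hp, hpw⟩ p' ⟨hp', hpw'⟩
    by_contra hne
    have h5 : ¬ (p : ℤ) ∣ (p' : ℤ) := by
      rw [Int.natCast_dvd_natCast]
      exact fun h6 => hne ((Nat.prime_dvd_prime_iff_eq hp hp').1 h6)
    have h6 := val_int_eq hp hpw h5
    rw [Int.cast_natCast] at h6
    exact absurd hpw' h6.not_lt
  set R : Set ℕ := {r : ℕ | r.Prime ∧ ¬ ∃ t : ZMod r, t ^ 2 = (η : ZMod r)} with hR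
  refine ⟨R \ E, fun p hp => hp.1.1, ?_, ?_⟩
  · intro hs
    have hnd := Pool.Agent.H755R5.Kum.nonsquare_density η hη
    change ¬ Summable (fun k : ℕ => R.indicator (fun k : ℕ => (1 : ℝ) / k) k) at hnd
    refine hnd ?_
    have hfin : Summable fun k : ℕ => (R ∩ E).indicator (fun k : ℕ => (1 : ℝ) / k) k :=
      summable_of_hasFiniteSupport ((hEfin.subset Set.inter_subset_right).subset
        Set.support_indicator_subset)
    refine (hs.add hfin).congr fun k => ?_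
    by_cases hkR : k ∈ R <;> by_cases hkE : k ∈ E <;> simp [hkR, hkE]
  · rintro p ⟨⟨hp, hpη⟩, hpE⟩
    obtain ⟨w, hw⟩ := exists_place hp
    have hlt : w.valuation ℚ (p : ℚ) < 1 := by
      rw [hw, ← WithZero.exp_zero, WithZero.exp_lt_exp]
      norm_num
    have hwC : w ∉ C₀ := fun hmem => hpE (Set.mem_biUnion hmem ⟨hp, hlt⟩)
    simp only [hC₀, Set.mem_union, Set.mem_ofPred_eq, not_or, not_not, not_lt] at hwC
    obtain ⟨⟨⟨⟨hwg, hwg'⟩, hwc⟩, hwd⟩, hwm⟩ := hwC
    have hden := val_rat hp hlt hwc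
    obtain ⟨u, v, huv⟩ := (Nat.prime_iff_prime_int.1 hp).coprime_iff_not_dvd.2 hden
    -- `z = c.num * v` is congruent to `c`
    have hcz : w.valuation ℚ (((c.num * v : ℤ) : ℚ) - c) < 1 := by
      have h1 : (u : ℚ) * (p : ℚ) + (v : ℚ) * (c.den : ℚ) = 1 := by
        exact_mod_cast congrArg (Int.cast : ℤ → ℚ) huv
      have h2 : (c.num : ℚ) = c * (c.den : ℚ) := (Rat.mul_den_eq_num c).symm
      have h3 : ((c.num * v : ℤ) : ℚ) - c = -(c * (u : ℚ)) * (p : ℚ) := by
        push_cast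
        rw [h2]
        linear_combination c * h1
      rw [h3, map_mul, Valuation.map_neg, map_mul]
      exact (mul_le_mul' (mul_le_one' hwc (val_int_le w u)) le_rfl).trans_lt
        ((one_mul _).trans_lt hlt)
    refine ⟨w, c.num * v, hw, ?_, ?_, ?_⟩
    · have h1 := val_eval_sub hwg (val_int_le w (c.num * v)) hwc
      rw [hg, sub_zero] at h1
      exact h1.trans_lt hcz
    · have h1 := val_eval_sub hwg' (val_int_le w (c.num * v)) hwc
      have h2 : w.valuation ℚ ((derivative g).eval c) = 1 := by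
        refine le_antisymm ?_ ?_
        · have h3 : w.valuation ℚ ((derivative g).eval c - (derivative g).eval ((0 : ℤ) : ℚ)) ≤ 1 :=
            (val_eval_sub hwg' hwc (val_int_le w 0)).trans
              (by rw [Int.cast_zero, sub_zero]; exact hwc)
          have h4 : w.valuation ℚ ((derivative g).eval ((0 : ℤ) : ℚ)) ≤ 1 := by
            rw [Int.cast_zero, ← coeff_zero_eq_eval_zero]
            exact hwg' 0
          have h5 := (w.valuation ℚ).map_add_le h3 h4
          rwa [sub_add_cancel] at h5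
        · rw [map_inv₀] at hwd
          exact (inv_le_one₀ (zero_lt_iff.2 ((_root_.map_ne_zero _).2 hg'))).1 hwd
      have h5 : (derivative g).eval ((c.num * v : ℤ) : ℚ) =
          ((derivative g).eval ((c.num * v : ℤ) : ℚ) - (derivative g).eval c) +
            (derivative g).eval c := by ring
      rw [h5, (w.valuation ℚ).map_add_eq_of_lt_right]
      · exact h2
      · rw [h2]
        exact h1.trans_lt hcz
    · intro _ θ hθ hlt'
      have h1 : (X ^ 2 - C m : ℚ[X][X]).evalEval ((c.num * v : ℤ) : ℚ) θ =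
          θ ^ 2 - m.eval ((c.num * v : ℤ) : ℚ) := by
        simp [Polynomial.evalEval]
      rw [h1] at hlt'
      have h2 := (val_eval_sub hwm (val_int_le w (c.num * v)) hwc).trans_lt hcz
      have h3 := (w.valuation ℚ).map_add_lt hlt' h2
      rw [sub_add_sub_cancel] at h3
      have hd1 : w.valuation ℚ ((m.eval c).den : ℚ) ≤ 1 := by
        exact_mod_cast val_int_le w ((m.eval c).den : ℤ)
      refine no_root hp hlt hpη (θ := ((m.eval c).den : ℚ) * θ) ?_ ?_
      · rw [map_mul]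
        exact mul_le_one' hd1 hθ
      · have h4 : (((m.eval c).den : ℚ) * θ) ^ 2 - (η : ℚ) =
            ((m.eval c).den : ℚ) ^ 2 * (θ ^ 2 - m.eval c) := by
          rw [hηm]
          ring
        rw [h4, map_mul, map_pow]
        exact (mul_le_mul' (pow_le_one' hd1 2) le_rfl).trans_lt ((one_mul _).trans_lt h3)

theorem conic_family {K : Type} [Field K] [NumberField K] {m g : K[X]}
    (h : ManyWithoutZero g (fun _ : Fin 1 => (X ^ 2 - C m : K[X][X]))) :
    InNonSplitFamily {a : K | ∃ x y z : K, (x ≠ 0 ∨ y ≠ 0 ∨ z ≠ 0) ∧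
      x ^ 2 - m.eval a * y ^ 2 = g.eval a * z ^ 2} := by
  classical
  set f₀ : MvPolynomial (Fin 4) K := MvPolynomial.X 1 ^ 2 -
    Polynomial.aeval (MvPolynomial.X 0 : MvPolynomial (Fin 4) K) m * MvPolynomial.X 2 ^ 2 -
    Polynomial.aeval (MvPolynomial.X 0 : MvPolynomial (Fin 4) K) g * MvPolynomial.X 3 ^ 2 with hf₀
  set G : MvPolynomial (Fin 3) K[X] := MvPolynomial.X 0 ^ 2 -
    MvPolynomial.C m * MvPolynomial.X 1 ^ 2 - MvPolynomial.C g * MvPolynomial.X 2 ^ 2 with hG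
  set P : Ideal (MvPolynomial (Fin 4) K) := Ideal.span {f₀} with hP
  set y₀ : Fin 3 → MvPolynomial (Fin 4) K := fun j => MvPolynomial.X j.succ with hy₀
  have hGrel : Rel P y₀ G := by
    refine ⟨2, ?_, ?_⟩
    · refine MvPolynomial.IsHomogeneous.sub (MvPolynomial.IsHomogeneous.sub ?_ ?_) ?_
      · exact MvPolynomial.isHomogeneous_X_pow _ 2
      · have := (MvPolynomial.isHomogeneous_C (Fin 3) m).mul
          (MvPolynomial.isHomogeneous_X_pow (R := K[X]) (1 : Fin 3) 2)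
        rwa [zero_add] at this
      · have := (MvPolynomial.isHomogeneous_C (Fin 3) g).mul
          (MvPolynomial.isHomogeneous_X_pow (R := K[X]) (2 : Fin 3) 2)
        rwa [zero_add] at this
    · have hC : ∀ q : K[X], Pool.Agent.Q57.MF.sub y₀ (MvPolynomial.C q) =
          Polynomial.aeval (MvPolynomial.X 0 : MvPolynomial (Fin 4) K) q := fun q => by
        rw [Pool.Agent.Q57.MF.sub, MvPolynomial.coe_eval₂Hom, MvPolynomial.eval₂_C]
        rfl
      have hX : ∀ j, Pool.Agent.Q57.MF.sub y₀ (MvPolynomial.X j) = y₀ j := fun j => by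
        rw [Pool.Agent.Q57.MF.sub, MvPolynomial.coe_eval₂Hom, MvPolynomial.eval₂_X]
      have h1 : Pool.Agent.Q57.MF.sub y₀ G = f₀ := by
        rw [hG, hf₀, map_sub, map_sub, map_mul, map_mul, map_pow, map_pow, map_pow, hC, hC, hX, hX,
          hX]
        rfl
      rw [h1]
      exact Ideal.mem_span_singleton_self _
  have hGneg : Rel P y₀ (-G) := by
    obtain ⟨m, hm, hm'⟩ := hGrel
    exact ⟨m, hm.neg, by rw [map_neg]; exact P.neg_mem hm'⟩
  have hI : ∀ s' : Set (MvPolynomial (Fin 3) K[X]),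
      (MvPolynomial.X 1 : MvPolynomial (Fin 3) K[X]) ∈ Ideal.span {G | Rel P y₀ G} ⊔
        Ideal.span {MvPolynomial.C g} ⊔
        Ideal.span (Set.range (fun _ : Fin 1 => (MvPolynomial.X 1 : MvPolynomial (Fin 3) K[X])) ∪ s') ∧
      (MvPolynomial.X 0 ^ 2 : MvPolynomial (Fin 3) K[X]) ∈ Ideal.span {G | Rel P y₀ G} ⊔
        Ideal.span {MvPolynomial.C g} ⊔
        Ideal.span (Set.range (fun _ : Fin 1 => (MvPolynomial.X 1 : MvPolynomial (Fin 3) K[X])) ∪ s')
      := by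
    intro s'
    set I := Ideal.span {G | Rel P y₀ G} ⊔ Ideal.span {MvPolynomial.C g} ⊔
      Ideal.span (Set.range (fun _ : Fin 1 => (MvPolynomial.X 1 : MvPolynomial (Fin 3) K[X])) ∪ s')
      with hI
    have h1 : (MvPolynomial.X 1 : MvPolynomial (Fin 3) K[X]) ∈ I :=
      Ideal.mem_sup_right (Ideal.subset_span (Or.inl ⟨0, rfl⟩))
    have h2 : G ∈ I := Ideal.mem_sup_left (Ideal.mem_sup_left (Ideal.subset_span hGrel))
    have h3 : (MvPolynomial.C g : MvPolynomial (Fin 3) K[X]) ∈ I :=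
      Ideal.mem_sup_left (Ideal.mem_sup_right (Ideal.mem_span_singleton_self _))
    refine ⟨h1, ?_⟩
    have h4 : (MvPolynomial.X 0 ^ 2 : MvPolynomial (Fin 3) K[X]) = G +
        (MvPolynomial.C m * MvPolynomial.X 1) * MvPolynomial.X 1 +
        (MvPolynomial.X 2 ^ 2) * MvPolynomial.C g := by
      rw [hG]
      ring
    rw [h4]
    exact I.add_mem (I.add_mem h2 (I.mul_mem_left _ h1)) (I.mul_mem_left _ h3)
  refine ⟨2, P, g, ?_, ?_⟩
  · refine ⟨1, 1, 2, fun _ => MvPolynomial.X 1, fun _ => MvPolynomial.X 0,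
      fun _ => MvPolynomial.X 2 ^ 2, fun _ => X ^ 2 - C m, fun _ => 1, fun _ => MvPolynomial.X 2,
      fun _ => ![MvPolynomial.X 0, -(MvPolynomial.C m * MvPolynomial.X 1)],
      fun _ => ![MvPolynomial.X 0, MvPolynomial.X 1], ?_, ?_, ?_, ?_, ?_, h⟩
    · intro _
      refine ⟨0, ?_⟩
      have h1 : homval (X ^ 2 - C m : K[X][X])
          (MvPolynomial.X 0 : MvPolynomial (Fin 3) K[X]) (MvPolynomial.X 1 ^ 1) =
          MvPolynomial.X 0 ^ 2 - MvPolynomial.C m * MvPolynomial.X 1 ^ 2 := by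
        rw [homval, natDegree_X_pow_sub_C, Finset.sum_range_succ, Finset.sum_range_succ,
          Finset.sum_range_one]
        simp [Polynomial.coeff_X_pow, Polynomial.coeff_C]
        ring
      rw [h1]
      convert hGrel using 1
      rw [hG]
      ring
    · intro _
      refine ⟨2, ?_⟩
      convert hGneg using 1
      rw [hG, Fin.sum_univ_two]
      simp
      ring
    · intro t q
      fin_cases q
      · refine ⟨2, ?_⟩
        have h1 : (MvPolynomial.X 2 * MvPolynomial.X 0 : MvPolynomial (Fin 3) K[X]) ^ 2 =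
            MvPolynomial.X 2 ^ 2 * MvPolynomial.X 0 ^ 2 := by ring
        change (MvPolynomial.X 2 * MvPolynomial.X 0 : MvPolynomial (Fin 3) K[X]) ^ 2 ∈ _
        rw [h1]
        exact Ideal.mul_mem_left _ _ (hI _).2
      · refine ⟨1, ?_⟩
        have h1 : (MvPolynomial.X 2 * -(MvPolynomial.C m * MvPolynomial.X 1) :
            MvPolynomial (Fin 3) K[X]) ^ 1 =
            -(MvPolynomial.X 2 * MvPolynomial.C m) * MvPolynomial.X 1 := by ring
        change (MvPolynomial.X 2 * -(MvPolynomial.C m * MvPolynomial.X 1) :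
            MvPolynomial (Fin 3) K[X]) ^ 1 ∈ _
        rw [h1]
        exact Ideal.mul_mem_left _ _ (hI _).1
    · intro t q
      fin_cases q
      · refine ⟨2, ?_⟩
        have h1 : (MvPolynomial.X 2 * MvPolynomial.X 0 : MvPolynomial (Fin 3) K[X]) ^ 2 =
            MvPolynomial.X 2 ^ 2 * MvPolynomial.X 0 ^ 2 := by ring
        change (MvPolynomial.X 2 * MvPolynomial.X 0 : MvPolynomial (Fin 3) K[X]) ^ 2 ∈ _
        rw [h1]
        exact Ideal.mul_mem_left _ _ (hI _).2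
      · refine ⟨1, ?_⟩
        change (MvPolynomial.X 2 * MvPolynomial.X 1 : MvPolynomial (Fin 3) K[X]) ^ 1 ∈ _
        rw [pow_one]
        exact Ideal.mul_mem_left _ _ (hI _).1
    · intro j
      fin_cases j
      · exact ⟨2, (hI _).2⟩
      · exact ⟨1, by rw [pow_one]; exact (hI _).1⟩
      · exact ⟨1, by
          rw [pow_one]
          exact Ideal.mem_sup_right (Ideal.subset_span (Or.inr ⟨0, rfl⟩))⟩
  · rintro a ⟨x, y, z, hxyz, h⟩
    refine ⟨![x, y, z], ?_, ?_⟩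
    · intro h0
      have h1 := congrFun h0 0
      have h2 := congrFun h0 1
      have h3 := congrFun h0 2
      simp at h1 h2 h3
      rcases hxyz with h4 | h4 | h4
      · exact h4 h1
      · exact h4 h2
      · exact h4 h3
    · intro f hf
      rw [hP] at hf
      obtain ⟨e, rfl⟩ := Ideal.mem_span_singleton'.1 hf
      have h1 : MvPolynomial.eval (Fin.cons a ![x, y, z]) f₀ = 0 := by
        rw [hf₀, map_sub, map_sub, map_mul, map_mul, map_pow, map_pow, map_pow, MvPolynomial.eval_X,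
          MvPolynomial.eval_X, MvPolynomial.eval_X, Pool.Agent.Q312.PR.eval_aeval,
          Pool.Agent.Q312.PR.eval_aeval]
        change x ^ 2 - m.eval a * y ^ 2 - g.eval a * z ^ 2 = 0
        rw [h, sub_self]
      rw [map_mul, h1, mul_zero]

theorem conic (m g : ℚ[X]) (c : ℚ) (hm : ¬ ∃ t : ℚ, t ^ 2 = m.eval c) (hg : g.eval c = 0)
    (hg' : (derivative g).eval c ≠ 0) :
    InNonSplitFamily {a : ℚ | ∃ x y z : ℚ, (x ≠ 0 ∨ y ≠ 0 ∨ z ≠ 0) ∧
      x ^ 2 - m.eval a * y ^ 2 = g.eval a * z ^ 2} :=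
  conic_family (many_conic hm hg hg')

end Pool.Agent.Q57.MF
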