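import Pool.Agent.Q57.MF.Main

/-!
# Families given by `H ^ d = g (a) G`
-/

set_option autoImplicit false

namespace Pool.Agent.Q57.MF

open Polynomial NumberField IsDedekindDomain Pool.Agent.TH783.CE Pool.Agent.Q312.PR

variable {K : Type} [Field K] [NumberField K] {N : ℕ}

/-- the ideal of the polynomials which vanish on a set -/
def van (X : Set (Fin (N + 2) → K)) : Ideal (MvPolynomial (Fin (N + 2)) K) where
  carrier := {f | ∀ x ∈ X, MvPolynomial.eval x f = 0}
  add_mem' := fun {f g} hf hg x hx => by rw [map_add, hf x hx, hg x hx, add_zero]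
  zero_mem' := fun x _ => map_zero _
  smul_mem' := fun c f hf x hx => by rw [smul_eq_mul, map_mul, hf x hx, mul_zero]

theorem thin_family {g : K[X]} {d : ℕ} (hg : Squarefree g) (hg' : 0 < g.natDegree) (hd : 2 ≤ d)
    {s : ℕ} (G H : Fin s → MvPolynomial (Fin (N + 1)) K[X]) (m : Fin s → ℕ)
    (hG : ∀ i, (G i).IsHomogeneous (m i * d)) (hH : ∀ i, (H i).IsHomogeneous (m i))
    (h : ∀ j, ∃ M, MvPolynomial.X j ^ M ∈ Ideal.span {MvPolynomial.C g} ⊔
      Ideal.span (Set.range G) ⊔ Ideal.span (Set.range fun i => H i ^ d)) :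
    Thin {a : K | (∃ r : 𝓞 K, (r : K) = a) ∧ ∃ y : Fin (N + 1) → K, y ≠ 0 ∧
      ∀ i, ev a y (H i) ^ d = g.eval a * ev a y (G i)} := by
  classical
  set X₀ : Set (Fin (N + 2) → K) := {x | ∀ i, ev (x 0) (fun j => x j.succ) (H i) ^ d =
    g.eval (x 0) * ev (x 0) (fun j => x j.succ) (G i)} with hX₀
  set y : Fin (N + 1) → MvPolynomial (Fin (N + 2)) K := fun j => MvPolynomial.X j.succ with hy
  have hyx : ∀ x : Fin (N + 2) → K, (fun j => MvPolynomial.eval x (y j)) = fun j => x j.succ := by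
    intro x
    funext j
    rw [hy, MvPolynomial.eval_X]
  have hC : ∀ (a : K) (z : Fin (N + 1) → K), ev a z (MvPolynomial.C g) = g.eval a := by
    intro a z
    rw [ev, MvPolynomial.coe_eval₂Hom, MvPolynomial.eval₂_C]
    rfl
  have hhom : ∀ i, (MvPolynomial.C g * G i ^ 1 - 1 * H i ^ d).IsHomogeneous (m i * d) := by
    intro i
    rw [pow_one, one_mul]
    refine MvPolynomial.IsHomogeneous.sub ?_ ((hH i).pow d)
    have h1 := (MvPolynomial.isHomogeneous_C (Fin (N + 1)) g).mul (hG i)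
    rwa [zero_add] at h1
  have hrel : ∀ i, Rel (van X₀) y (MvPolynomial.C g * G i ^ 1 - 1 * H i ^ d) := by
    intro i
    refine ⟨m i * d, hhom i, fun x hx => ?_⟩
    rw [eval_sub, hyx, pow_one, one_mul, map_sub, map_mul, map_pow, hC, hx i, sub_self]
  obtain ⟨B, hB, hdvd⟩ := exists_bad (P := van X₀) (g := g) (d := d) (y := y) (F := G)
    (U := fun _ => 1) (V := fun _ => 1) (H := H) (fun i => ⟨1, hrel i⟩)
    (fun i => ⟨0, 0, by
      rw [pow_zero, one_mul, sub_self]; exact MvPolynomial.isHomogeneous_zero _ _ _, by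
      rw [pow_zero, one_mul, sub_self, map_zero]; exact Submodule.zero_mem _⟩)
    (fun j => by
      obtain ⟨M, hM⟩ := h j
      refine ⟨M, (?_ : Ideal.span {MvPolynomial.C g} ⊔
        Ideal.span (Set.range G) ⊔ Ideal.span (Set.range fun i => H i ^ d) ≤ _) hM⟩
      refine sup_le (sup_le (le_sup_of_le_left le_sup_right) le_sup_right) ?_
      rw [Ideal.span_le]
      rintro _ ⟨i, rfl⟩
      have h1 : H i ^ d = MvPolynomial.C g * G i ^ 1 -
          (MvPolynomial.C g * G i ^ 1 - 1 * H i ^ d) := by ring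
      change H i ^ d ∈ _
      rw [h1]
      refine Ideal.sub_mem _ ?_ ?_
      · refine Ideal.mem_sup_left (Ideal.mem_sup_right ?_)
        exact Ideal.mul_mem_right _ _ (Ideal.mem_span_singleton_self _)
      · exact Ideal.mem_sup_left (Ideal.mem_sup_left (Ideal.subset_span (hrel i))))
  obtain ⟨R, hR, hsel⟩ := selmer_set (K := K) (d := d) (by omega) hB
  have hroots : Thin {a : K | g.IsRoot a} := by
    refine Thin.of_finite ?_
    have hg0 : g ≠ 0 := hg.ne_zero
    refine (g.roots.toFinset.finite_toSet).subset ?_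
    intro a ha
    simp [hg0]
    exact ha
  have hun : Thin (⋃ u ∈ R, {a : K | ∃ t, g.eval a = (u : K) * t ^ d}) :=
    Thin.biUnion hR fun u _ => thin_pow hg hg' hd u.ne_zero
  refine (hroots.union hun).mono ?_
  rintro a ⟨⟨r, rfl⟩, z, hz, hzH⟩
  by_cases ha : g.eval (r : K) = 0
  · exact Or.inl ha
  · right
    set x : Fin (N + 2) → K := Fin.cons (r : K) z with hx
    have hx0 : x 0 = r := rfl
    have hxs : (fun j => x (Fin.succ j)) = z := rfl
    have hxX : x ∈ X₀ := by
      intro i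
      rw [hx0, hxs]
      exact hzH i
    obtain ⟨j, hj⟩ : ∃ j, z j ≠ 0 := by
      by_contra hcon
      push Not at hcon
      exact hz (funext hcon)
    obtain ⟨u, hu, t, ht⟩ := hsel (Units.mk0 _ ha) fun w hw =>
      hdvd w hw x (fun f hf => hf x hxX) ⟨j, by rw [congrFun (hyx x) j]; exact hj⟩
        (by rw [hx0]; exact w.valuation_le_one (K := K) r) ha
    refine Set.mem_biUnion hu ⟨(t : K), ?_⟩
    have h4 := congrArg Units.val ht
    rwa [Units.val_mk0, Units.val_mul, Units.val_pow_eq_pow_val] at h4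

end Pool.Agent.Q57.MF
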