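import Pool.Agent.Q312.PR.Gen
import Pool.Agent.H645R3.ABC3

/-!
# Multiple fibres and valuations

Let `W` be a closed set over a number field `K`, with a coordinate `a`, and suppose that the zeros of
`g (a)` are multiple fibres of a projective family dominated by `W`. Then the valuations of `g (a)` at
all but finitely many places at which `a` is integral are divisible by the multiplicity, for the
`K`-points of `W` off a proper closed subset.
-/

set_option autoImplicit false

namespace Pool.Agent.Q57.MF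

open Polynomial NumberField IsDedekindDomain Pool.Agent.TH783.CE Pool.Agent.Q312.PR

section subst

variable {K : Type} [Field K] {n N : ℕ}

/-- The value at `(a, y)` of a polynomial in `Y 0, …, Y N` with coefficients in `K[a]`. -/
noncomputable def ev (a : K) (y : Fin (N + 1) → K) : MvPolynomial (Fin (N + 1)) K[X] →+* K :=
  MvPolynomial.eval₂Hom (Polynomial.evalRingHom a) y

/-- The substitution of the polynomials `y j` in `a = x 0` and the other coordinates for `Y j`. -/
noncomputable def sub (y : Fin (N + 1) → MvPolynomial (Fin (n + 1)) K) :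
    MvPolynomial (Fin (N + 1)) K[X] →+* MvPolynomial (Fin (n + 1)) K :=
  MvPolynomial.eval₂Hom
    (Polynomial.aeval (MvPolynomial.X 0 : MvPolynomial (Fin (n + 1)) K)).toRingHom y

theorem eval_sub (x : Fin (n + 1) → K) (y : Fin (N + 1) → MvPolynomial (Fin (n + 1)) K)
    (G : MvPolynomial (Fin (N + 1)) K[X]) :
    MvPolynomial.eval x (sub y G) = ev (x 0) (fun j => MvPolynomial.eval x (y j)) G := by
  have h : (MvPolynomial.eval x).comp (sub y) = ev (x 0) (fun j => MvPolynomial.eval x (y j)) := by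
    refine MvPolynomial.ringHom_ext (fun p => ?_) (fun j => ?_)
    · rw [RingHom.comp_apply, sub, ev, MvPolynomial.coe_eval₂Hom, MvPolynomial.coe_eval₂Hom,
        MvPolynomial.eval₂_C, MvPolynomial.eval₂_C]
      exact eval_aeval x p
    · rw [RingHom.comp_apply, sub, ev, MvPolynomial.coe_eval₂Hom, MvPolynomial.coe_eval₂Hom,
        MvPolynomial.eval₂_X, MvPolynomial.eval₂_X]
  exact congrArg (fun φ => φ G) h

theorem ev_smul {m : ℕ} {G : MvPolynomial (Fin (N + 1)) K[X]} (hG : G.IsHomogeneous m) (a l : K)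
    (y : Fin (N + 1) → K) : ev a (fun j => l * y j) G = l ^ m * ev a y G := by
  simp only [ev, MvPolynomial.coe_eval₂Hom]
  rw [MvPolynomial.eval₂_eq, MvPolynomial.eval₂_eq, Finset.mul_sum]
  refine Finset.sum_congr rfl fun d hd => ?_
  have h1 : ∑ i ∈ d.support, d i = m := by
    have h2 := hG (MvPolynomial.mem_support_iff.1 hd)
    rw [← h2]
    simp [Finsupp.weight_apply, Finsupp.sum]
  rw [Finset.prod_congr rfl (fun i _ => mul_pow l (y i) (d i)), Finset.prod_mul_distrib,
    Finset.prod_pow_eq_pow_sum, h1]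
  ring

/-- The form `G` (homogeneous in `Y 0, …, Y N`, with coefficients in `K[a]`) vanishes at the points
`(a, y)` with `y = y (a, z)`, `(a, z)` in the set of zeros of `P`. -/
def Rel (P : Ideal (MvPolynomial (Fin (n + 1)) K)) (y : Fin (N + 1) → MvPolynomial (Fin (n + 1)) K)
    (G : MvPolynomial (Fin (N + 1)) K[X]) : Prop :=
  ∃ m, G.IsHomogeneous m ∧ sub y G ∈ P

theorem Rel.eval {P : Ideal (MvPolynomial (Fin (n + 1)) K)}
    {y : Fin (N + 1) → MvPolynomial (Fin (n + 1)) K} {G : MvPolynomial (Fin (N + 1)) K[X]}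
    (h : Rel P y G) {x : Fin (n + 1) → K} (hx : ∀ f ∈ P, MvPolynomial.eval x f = 0) (l : K) :
    ev (x 0) (fun j => l * MvPolynomial.eval x (y j)) G = 0 := by
  obtain ⟨m, hm, hG⟩ := h
  rw [ev_smul hm, ← eval_sub, hx _ hG, mul_zero]

theorem span_eval {P : Ideal (MvPolynomial (Fin (n + 1)) K)}
    {y : Fin (N + 1) → MvPolynomial (Fin (n + 1)) K} {G : MvPolynomial (Fin (N + 1)) K[X]}
    (h : G ∈ Ideal.span {G | Rel P y G}) {x : Fin (n + 1) → K}
    (hx : ∀ f ∈ P, MvPolynomial.eval x f = 0) (l : K) :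
    ev (x 0) (fun j => l * MvPolynomial.eval x (y j)) G = 0 := by
  have h1 : Ideal.span {G | Rel P y G} ≤
      RingHom.ker (ev (x 0) (fun j => l * MvPolynomial.eval x (y j))) := by
    rw [Ideal.span_le]
    intro G hG
    exact RingHom.mem_ker.2 (Rel.eval hG hx l)
  exact RingHom.mem_ker.1 (h1 h)

end subst

section places

variable {K : Type} [Field K] [NumberField K] {n N : ℕ}

theorem finite_pole (c : K) : {w : HeightOneSpectrum (𝓞 K) | 1 < w.valuation K c}.Finite :=
  HeightOneSpectrum.Support.finite (𝓞 K) c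

/-- the polynomial has integral values at integral points -/
def Int (w : HeightOneSpectrum (𝓞 K)) (G : MvPolynomial (Fin (N + 1)) K[X]) : Prop :=
  ∀ (a : K) (y : Fin (N + 1) → K), w.valuation K a ≤ 1 → (∀ j, w.valuation K (y j) ≤ 1) →
    w.valuation K (ev a y G) ≤ 1

theorem finite_bad (G : MvPolynomial (Fin (N + 1)) K[X]) :
    {w : HeightOneSpectrum (𝓞 K) | ¬ Int w G}.Finite := by
  induction G using MvPolynomial.induction_on with
  | C p =>
    induction p using Polynomial.induction_on' with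
    | add p q hp hq =>
      refine (hp.union hq).subset ?_
      intro w hw
      by_contra hcon
      rw [Set.mem_union, not_or] at hcon
      simp only [Set.mem_ofPred_eq, not_not] at hcon hw
      refine hw fun a y ha hy => ?_
      rw [map_add, map_add]
      exact (w.valuation K).map_add_le (hcon.1 a y ha hy) (hcon.2 a y ha hy)
    | monomial k c =>
      refine (finite_pole c).subset ?_
      intro w hw
      by_contra hcon
      simp only [Set.mem_ofPred_eq, not_lt] at hcon hw
      refine hw fun a y ha _ => ?_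
      have h1 : ev a y (MvPolynomial.C (Polynomial.monomial k c)) = c * a ^ k := by
        simp [ev]
      rw [h1, map_mul, map_pow]
      exact mul_le_one' hcon (pow_le_one' ha k)
  | add p q hp hq =>
    refine (hp.union hq).subset ?_
    intro w hw
    by_contra hcon
    rw [Set.mem_union, not_or] at hcon
    simp only [Set.mem_ofPred_eq, not_not] at hcon hw
    refine hw fun a y ha hy => ?_
    rw [map_add]
    exact (w.valuation K).map_add_le (hcon.1 a y ha hy) (hcon.2 a y ha hy)
  | mul_X p j hp =>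
    refine hp.subset ?_
    intro w hw
    by_contra hcon
    simp only [Set.mem_ofPred_eq, not_not] at hcon hw
    refine hw fun a y ha hy => ?_
    have h1 : ev a y (MvPolynomial.X j) = y j := by
      simp [ev]
    rw [map_mul, h1, map_mul]
    exact mul_le_one' (hcon a y ha hy) (hy j)

/-- The data of a multiple fibre. -/
theorem exists_bad {P : Ideal (MvPolynomial (Fin (n + 1)) K)} {g : K[X]} {d : ℕ}
    {y : Fin (N + 1) → MvPolynomial (Fin (n + 1)) K} {s : ℕ}
    {F U V H : Fin s → MvPolynomial (Fin (N + 1)) K[X]}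
    (h1 : ∀ i, ∃ k, Rel P y (MvPolynomial.C g * F i ^ k - U i * H i ^ d))
    (h2 : ∀ i, ∃ k, Rel P y (U i * V i - F i ^ k))
    (h3 : ∀ j, ∃ M, MvPolynomial.X j ^ M ∈ Ideal.span {G | Rel P y G} ⊔
      Ideal.span {MvPolynomial.C g} ⊔ Ideal.span (Set.range F)) :
    ∃ B : Set (HeightOneSpectrum (𝓞 K)), B.Finite ∧ ∀ w ∉ B, ∀ x : Fin (n + 1) → K,
      (∀ f ∈ P, MvPolynomial.eval x f = 0) → (∃ j, MvPolynomial.eval x (y j) ≠ 0) →
      w.valuation K (x 0) ≤ 1 → ∀ ha : g.eval (x 0) ≠ 0,
      (d : ℤ) ∣ H645.ABC.vl w (Units.mk0 _ ha) := by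
  classical
  choose k₁ h1 using h1
  choose k₂ h2 using h2
  have h3' : ∀ j, ∃ (M : ℕ) (A : MvPolynomial (Fin (N + 1)) K[X])
      (B : Fin s → MvPolynomial (Fin (N + 1)) K[X]),
      MvPolynomial.X j ^ M - (A * MvPolynomial.C g + ∑ i, B i * F i) ∈
        Ideal.span {G | Rel P y G} := by
    intro j
    obtain ⟨M, hM⟩ := h3 j
    obtain ⟨G₁, hG₁, G₂, hG₂, h4⟩ := Submodule.mem_sup.1 hM
    obtain ⟨G₀, hG₀, G₃, hG₃, h5⟩ := Submodule.mem_sup.1 hG₁
    obtain ⟨A, hA⟩ := Ideal.mem_span_singleton'.1 hG₃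
    obtain ⟨B, hB⟩ := (Ideal.mem_span_range_iff_exists_fun).1 hG₂
    refine ⟨M, A, B, ?_⟩
    have h6 : MvPolynomial.X j ^ M - (A * MvPolynomial.C g + ∑ i, B i * F i) = G₀ := by
      rw [← h4, ← h5, hA, hB]
      ring
    rw [h6]
    exact hG₀
  choose M A B h3 using h3'
  refine ⟨(⋃ i, {w | ¬ Int w (F i)}) ∪ (⋃ i, {w | ¬ Int w (U i)}) ∪ (⋃ i, {w | ¬ Int w (V i)}) ∪
    (⋃ j, {w | ¬ Int w (A j)}) ∪ (⋃ j, ⋃ i, {w | ¬ Int w (B j i)}) ∪
    {w | ¬ Int w (MvPolynomial.C g : MvPolynomial (Fin (N + 1)) K[X])}, ?_, ?_⟩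
  · refine (((((Set.finite_iUnion fun i => ?_).union (Set.finite_iUnion fun i => ?_)).union
      (Set.finite_iUnion fun i => ?_)).union (Set.finite_iUnion fun i => ?_)).union
      (Set.finite_iUnion fun j => Set.finite_iUnion fun i => ?_)).union ?_
    all_goals exact finite_bad _
  intro w hw x hx hy hx0 ha
  simp only [Set.mem_union, Set.mem_iUnion, Set.mem_ofPred_eq, not_or, not_exists, not_not] at hw
  obtain ⟨⟨⟨⟨⟨hF, hU⟩, hV⟩, hA⟩, hB⟩, hg⟩ := hw
  set v := w.valuation K with hv
  set yy : Fin (N + 1) → K := fun j => MvPolynomial.eval x (y j) with hyy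
  have hgle : v (g.eval (x 0)) ≤ 1 := by
    have h4 := hg (x 0) (fun _ => 0) hx0 (fun _ => by rw [map_zero]; exact zero_le_one)
    have h5 : ev (x 0) (fun _ : Fin (N + 1) => (0 : K)) (MvPolynomial.C g) = g.eval (x 0) := by
      simp [ev]
    rwa [h5] at h4
  have hvl : ∀ z : Kˣ, ((w.valuationOfNeZero z : Multiplicative ℤ) :
      WithZero (Multiplicative ℤ)) = v (z : K) := fun z => w.valuationOfNeZero_eq z
  rcases hgle.lt_or_eq with hlt | heq
  · obtain ⟨j₀, -, hj₀⟩ := Finset.exists_max_image Finset.univ (fun j => v (yy j))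
      Finset.univ_nonempty
    have hj1 : yy j₀ ≠ 0 := by
      intro h0
      obtain ⟨j, hj⟩ := hy
      have h4 := hj₀ j (Finset.mem_univ j)
      rw [h0, map_zero, nonpos_iff_eq_zero, map_eq_zero] at h4
      exact hj h4
    set l : K := (yy j₀)⁻¹ with hl
    have hvle : ∀ j, v (l * yy j) ≤ 1 := by
      intro j
      rw [hl, map_mul, map_inv₀]
      have h4 : v (yy j₀) ≠ 0 := by
        rw [Ne, map_eq_zero]
        exact hj1
      rw [inv_mul_le_iff₀ (zero_lt_iff.2 h4), mul_one]
      exact hj₀ j (Finset.mem_univ j)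
    have hone : l * yy j₀ = 1 := by rw [hl, inv_mul_cancel₀ hj1]
    set φ := ev (x 0) (fun j => l * yy j) with hφ
    have hX : φ (MvPolynomial.X j₀) = 1 := by
      rw [hφ, ev, MvPolynomial.coe_eval₂Hom, MvPolynomial.eval₂_X]
      exact hone
    have hC : φ (MvPolynomial.C g) = g.eval (x 0) := by
      rw [hφ, ev, MvPolynomial.coe_eval₂Hom, MvPolynomial.eval₂_C]
      rfl
    have h4 : φ (A j₀) * g.eval (x 0) + ∑ i, φ (B j₀ i) * φ (F i) = 1 := by
      have h5 := span_eval (h3 j₀) hx l
      change φ _ = 0 at h5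
      rw [map_sub, map_pow, hX, one_pow, map_add, map_mul, hC, map_sum] at h5
      rw [sub_eq_zero] at h5
      rw [h5]
      congr 1
      refine Finset.sum_congr rfl fun i _ => ?_
      rw [map_mul]
    obtain ⟨i, hi⟩ : ∃ i, v (φ (F i)) = 1 := by
      by_contra hcon
      push Not at hcon
      have h5 : ∀ i, v (φ (F i)) < 1 := fun i =>
        lt_of_le_of_ne (hF i (x 0) _ hx0 hvle) (hcon i)
      have h6 : v (φ (A j₀) * g.eval (x 0) + ∑ i, φ (B j₀ i) * φ (F i)) < 1 := by
        refine v.map_add_lt ?_ (v.map_sum_lt one_ne_zero fun i _ => ?_)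
        · rw [map_mul]
          exact (mul_le_mul' (hA j₀ (x 0) _ hx0 hvle) le_rfl).trans_lt ((one_mul _).trans_lt hlt)
        · rw [map_mul]
          exact (mul_le_mul' (hB j₀ i (x 0) _ hx0 hvle) le_rfl).trans_lt
            ((one_mul _).trans_lt (h5 i))
      rw [h4, map_one] at h6
      exact lt_irrefl _ h6
    have hFi : φ (F i) ≠ 0 := by
      intro h0
      rw [h0, map_zero] at hi
      exact zero_ne_one hi
    have h5 : φ (U i) * φ (V i) = φ (F i) ^ k₂ i := by
      have h6 := Rel.eval (h2 i) hx l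
      change φ _ = 0 at h6
      rwa [map_sub, map_mul, map_pow, sub_eq_zero] at h6
    have h6 : v (φ (U i)) = 1 := by
      have h7 : v (φ (U i)) * v (φ (V i)) = 1 := by
        rw [← map_mul, h5, map_pow, hi, one_pow]
      refine le_antisymm (hU i (x 0) _ hx0 hvle) (not_lt.1 fun h8 => ?_)
      have h9 := (mul_le_mul' (le_refl (v (φ (U i)))) (hV i (x 0) _ hx0 hvle)).trans_lt
        ((mul_one _).trans_lt h8)
      rw [h7] at h9
      exact lt_irrefl _ h9
    have h7 : g.eval (x 0) * φ (F i) ^ k₁ i = φ (U i) * φ (H i) ^ d := by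
      have h8 := Rel.eval (h1 i) hx l
      change φ _ = 0 at h8
      rwa [map_sub, map_mul, map_mul, map_pow, map_pow, hC, sub_eq_zero] at h8
    have h8 : v (g.eval (x 0)) = v (φ (H i)) ^ d := by
      have h9 := congrArg v h7
      rwa [map_mul, map_mul, map_pow, map_pow, hi, one_pow, mul_one, h6, one_mul] at h9
    rcases Nat.eq_zero_or_pos d with rfl | hd
    · rw [pow_zero] at h8
      exact absurd h8 hlt.ne
    have hH : φ (H i) ≠ 0 := by
      intro h0
      rw [h0, map_zero, zero_pow hd.ne', map_eq_zero] at h8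
      exact ha h8
    have h9 : w.valuationOfNeZero (Units.mk0 _ ha) = w.valuationOfNeZero (Units.mk0 _ hH) ^ d := by
      rw [← WithZero.coe_inj, WithZero.coe_pow, hvl, hvl, Units.val_mk0, Units.val_mk0]
      exact h8
    have h10 : H645.ABC.vl w (Units.mk0 _ ha) = d * H645.ABC.vl w (Units.mk0 _ hH) := by
      unfold H645.ABC.vl
      rw [h9, toAdd_pow, nsmul_eq_mul]
    rw [h10]
    exact dvd_mul_right _ _
  · have h9 : w.valuationOfNeZero (Units.mk0 _ ha) = 1 := by
      rw [← WithZero.coe_inj, hvl, Units.val_mk0, heq]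
      rfl
    have h10 : H645.ABC.vl w (Units.mk0 _ ha) = 0 := by
      unfold H645.ABC.vl
      rw [h9, toAdd_one]
    rw [h10]
    exact dvd_zero _

end places

end Pool.Agent.Q57.MF
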