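import Pool.Agent.Q57.MF.Loc

/-!
# Non-split fibres and valuations
-/

set_option autoImplicit false

namespace Pool.Agent.Q57.MF

open Polynomial NumberField IsDedekindDomain Pool.Agent.TH783.CE Pool.Agent.Q312.PR

theorem le_exp_neg_one {x : WithZero (Multiplicative ℤ)} (h : x < 1) : x ≤ WithZero.exp (-1) := by
  rcases eq_or_ne x 0 with rfl | hx
  · exact zero_le
  · obtain ⟨k, rfl⟩ : ∃ k, x = WithZero.exp k := ⟨WithZero.log x, (WithZero.exp_log hx).symm⟩
    rw [← WithZero.exp_zero, WithZero.exp_lt_exp] at h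
    rw [WithZero.exp_le_exp]
    omega

section hom

variable {K : Type} [Field K] {N : ℕ}

/-- The homogenised value `F ^ (deg ψ) ψ(a, T / F)`, a polynomial in `T` and `F`, for a polynomial
`ψ (a, Y)`. -/
noncomputable def homval (ψ : K[X][X]) (T F : MvPolynomial (Fin (N + 1)) K[X]) :
    MvPolynomial (Fin (N + 1)) K[X] :=
  ∑ j ∈ Finset.range (ψ.natDegree + 1),
    MvPolynomial.C (ψ.coeff j) * T ^ j * F ^ (ψ.natDegree - j)

theorem evalEval_eq_sum (a θ : K) (ψ : K[X][X]) :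
    ψ.evalEval a θ = ∑ j ∈ Finset.range (ψ.natDegree + 1), (ψ.coeff j).eval a * θ ^ j := by
  rw [Polynomial.evalEval, Polynomial.eval_eq_sum_range (p := ψ), Polynomial.eval_finsetSum]
  refine Finset.sum_congr rfl fun j _ => ?_
  rw [Polynomial.eval_mul, Polynomial.eval_pow, eval_C]

theorem ev_homval (a : K) (y : Fin (N + 1) → K) (ψ : K[X][X])
    (T F : MvPolynomial (Fin (N + 1)) K[X]) (hF : ev a y F ≠ 0) :
    ev a y (homval ψ T F) = ev a y F ^ ψ.natDegree * ψ.evalEval a (ev a y T / ev a y F) := by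
  rw [homval, map_sum, evalEval_eq_sum, Finset.mul_sum]
  refine Finset.sum_congr rfl fun j hj => ?_
  rw [Finset.mem_range] at hj
  have h1 : ev a y (MvPolynomial.C (ψ.coeff j)) = (ψ.coeff j).eval a := by
    rw [ev, MvPolynomial.coe_eval₂Hom, MvPolynomial.eval₂_C, Polynomial.coe_evalRingHom]
  have h2 : ev a y F ^ ψ.natDegree = ev a y F ^ (ψ.natDegree - j) * ev a y F ^ j := by
    rw [← pow_add]
    congr 1
    omega
  rw [map_mul, map_mul, map_pow, map_pow, h1, h2, div_pow]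
  field_simp

end hom

section places

variable {K : Type} [Field K] [NumberField K] {n N : ℕ}

theorem small_of_mem {ι : Type} [Fintype ι] {P : Ideal (MvPolynomial (Fin (n + 1)) K)} {g : K[X]}
    {y : Fin (N + 1) → MvPolynomial (Fin (n + 1)) K} {F : ι → MvPolynomial (Fin (N + 1)) K[X]}
    {e : MvPolynomial (Fin (N + 1)) K[X]}
    (he : e ∈ Ideal.span {G | Rel P y G} ⊔ Ideal.span {MvPolynomial.C g} ⊔
      Ideal.span (Set.range F)) :
    ∃ B : Set (HeightOneSpectrum (𝓞 K)), B.Finite ∧ ∀ w ∉ B, ∀ (x : Fin (n + 1) → K) (l : K),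
      (∀ f ∈ P, MvPolynomial.eval x f = 0) →
      (∀ j, w.valuation K (l * MvPolynomial.eval x (y j)) ≤ 1) → w.valuation K (x 0) ≤ 1 →
      w.valuation K (g.eval (x 0)) < 1 →
      (∀ i, w.valuation K (ev (x 0) (fun j => l * MvPolynomial.eval x (y j)) (F i)) < 1) →
      w.valuation K (ev (x 0) (fun j => l * MvPolynomial.eval x (y j)) e) < 1 := by
  classical
  obtain ⟨G₁, hG₁, G₂, hG₂, h4⟩ := Submodule.mem_sup.1 he
  obtain ⟨G₀, hG₀, G₃, hG₃, h5⟩ := Submodule.mem_sup.1 hG₁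
  obtain ⟨A, hA⟩ := Ideal.mem_span_singleton'.1 hG₃
  obtain ⟨B, hB⟩ := (Ideal.mem_span_range_iff_exists_fun).1 hG₂
  refine ⟨{w | ¬ Int w A} ∪ ⋃ i, {w | ¬ Int w (B i)},
    (finite_bad _).union (Set.finite_iUnion fun i => finite_bad _), ?_⟩
  intro w hw x l hx hy hx0 hg hF
  simp only [Set.mem_union, Set.mem_iUnion, Set.mem_ofPred_eq, not_or, not_exists, not_not] at hw
  obtain ⟨hAw, hBw⟩ := hw
  have hC : ev (x 0) (fun j => l * MvPolynomial.eval x (y j)) (MvPolynomial.C g) =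
      g.eval (x 0) := by
    rw [ev, MvPolynomial.coe_eval₂Hom, MvPolynomial.eval₂_C]
    rfl
  have h0 := span_eval hG₀ hx l
  have h6 : ev (x 0) (fun j => l * MvPolynomial.eval x (y j)) e =
      ev (x 0) (fun j => l * MvPolynomial.eval x (y j)) A * g.eval (x 0) +
      ∑ i, ev (x 0) (fun j => l * MvPolynomial.eval x (y j)) (B i) *
        ev (x 0) (fun j => l * MvPolynomial.eval x (y j)) (F i) := by
    rw [← h4, ← h5, map_add, map_add, h0, zero_add, ← hA, ← hB, map_mul, hC, map_sum]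
    congr 1
    refine Finset.sum_congr rfl fun i _ => ?_
    rw [map_mul]
  rw [h6]
  refine (w.valuation K).map_add_lt ?_ ((w.valuation K).map_sum_lt one_ne_zero fun i _ => ?_)
  · rw [map_mul]
    exact (mul_le_mul' (hAw (x 0) _ hx0 hy) le_rfl).trans_lt ((one_mul _).trans_lt hg)
  · rw [map_mul]
    exact (mul_le_mul' (hBw i (x 0) _ hx0 hy) le_rfl).trans_lt ((one_mul _).trans_lt (hF i))

theorem exists_bad2 {P : Ideal (MvPolynomial (Fin (n + 1)) K)} {g : K[X]}
    {y : Fin (N + 1) → MvPolynomial (Fin (n + 1)) K} {s r u : ℕ}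
    {F T Z : Fin s → MvPolynomial (Fin (N + 1)) K[X]} {ψ : Fin s → K[X][X]} {l : Fin s → ℕ}
    {D : Fin r → MvPolynomial (Fin (N + 1)) K[X]}
    {A B : Fin r → Fin u → MvPolynomial (Fin (N + 1)) K[X]}
    (h1 : ∀ i, ∃ k, Rel P y (F i ^ k * homval (ψ i) (T i) (F i ^ l i) - MvPolynomial.C g * Z i))
    (h2 : ∀ t, ∃ k, Rel P y (D t ^ k * MvPolynomial.C g - ∑ q, A t q * B t q))
    (h3 : ∀ t q, ∃ k, (D t * A t q) ^ k ∈ Ideal.span {G | Rel P y G} ⊔
      Ideal.span {MvPolynomial.C g} ⊔ Ideal.span (Set.range F ∪ D '' Set.Iio t))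
    (h3' : ∀ t q, ∃ k, (D t * B t q) ^ k ∈ Ideal.span {G | Rel P y G} ⊔
      Ideal.span {MvPolynomial.C g} ⊔ Ideal.span (Set.range F ∪ D '' Set.Iio t))
    (h4 : ∀ j, ∃ M, MvPolynomial.X j ^ M ∈ Ideal.span {G | Rel P y G} ⊔
      Ideal.span {MvPolynomial.C g} ⊔ Ideal.span (Set.range F ∪ Set.range D)) :
    ∃ C : Set (HeightOneSpectrum (𝓞 K)), C.Finite ∧ ∀ w ∉ C, ∀ x : Fin (n + 1) → K,
      (∀ f ∈ P, MvPolynomial.eval x f = 0) → (∃ j, MvPolynomial.eval x (y j) ≠ 0) →
      w.valuation K (x 0) ≤ 1 → w.valuation K (g.eval (x 0)) = WithZero.exp (-1) →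
      ∃ i, ∃ θ : K, w.valuation K θ ≤ 1 ∧ w.valuation K ((ψ i).evalEval (x 0) θ) < 1 := by
  classical
  choose k₁ h1 using h1
  choose k₂ h2 using h2
  choose k₃ h3 using h3
  choose k₄ h3' using h3'
  choose M h4 using h4
  have h4' : ∀ j, MvPolynomial.X j ^ M j ∈ Ideal.span {G | Rel P y G} ⊔
      Ideal.span {MvPolynomial.C g} ⊔ Ideal.span (Set.range (Sum.elim F D)) := by
    intro j
    rw [Set.Sum.elim_range]
    exact h4 j
  have hset : ∀ t, Set.range F ∪ D '' Set.Iio t =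
      Set.range (Sum.elim F (fun t' : {t' // t' < t} => D t')) := by
    intro t
    rw [Set.Sum.elim_range]
    congr 1
    ext G
    simp
  simp only [hset] at h3 h3'
  have s3 := fun t q => small_of_mem (h3 t q)
  have s3' := fun t q => small_of_mem (h3' t q)
  have s4 := fun j => small_of_mem (h4' j)
  choose B₃ hB₃ s3 using s3
  choose B₃' hB₃' s3' using s3'
  choose B₄ hB₄ s4 using s4
  refine ⟨(⋃ i, {w | ¬ Int w (F i)}) ∪ (⋃ i, {w | ¬ Int w (T i)}) ∪ (⋃ i, {w | ¬ Int w (Z i)}) ∪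
    (⋃ t, {w | ¬ Int w (D t)}) ∪ (⋃ t, ⋃ q, {w | ¬ Int w (A t q)}) ∪
    (⋃ t, ⋃ q, {w | ¬ Int w (B t q)}) ∪ (⋃ t, ⋃ q, B₃ t q) ∪ (⋃ t, ⋃ q, B₃' t q) ∪ (⋃ j, B₄ j),
    ?_, ?_⟩
  · refine ((((((((Set.finite_iUnion fun i => finite_bad _).union
      (Set.finite_iUnion fun i => finite_bad _)).union
      (Set.finite_iUnion fun i => finite_bad _)).union
      (Set.finite_iUnion fun i => finite_bad _)).union
      (Set.finite_iUnion fun i => Set.finite_iUnion fun q => finite_bad _)).union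
      (Set.finite_iUnion fun i => Set.finite_iUnion fun q => finite_bad _)).union
      (Set.finite_iUnion fun i => Set.finite_iUnion fun q => hB₃ i q)).union
      (Set.finite_iUnion fun i => Set.finite_iUnion fun q => hB₃' i q)).union
      (Set.finite_iUnion fun j => hB₄ j)
  intro w hw x hx hy hx0 hgv
  simp only [Set.mem_union, Set.mem_iUnion, Set.mem_ofPred_eq, not_or, not_exists, not_not] at hw
  obtain ⟨⟨⟨⟨⟨⟨⟨⟨hF, hT⟩, hZ⟩, hD⟩, hA⟩, hB⟩, hb3⟩, hb3'⟩, hb4⟩ := hw
  have hlt : w.valuation K (g.eval (x 0)) < 1 := by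
    rw [hgv, ← WithZero.exp_zero, WithZero.exp_lt_exp]
    norm_num
  obtain ⟨j₀, -, hj₀⟩ := Finset.exists_max_image Finset.univ
    (fun j => w.valuation K (MvPolynomial.eval x (y j))) Finset.univ_nonempty
  have hj1 : MvPolynomial.eval x (y j₀) ≠ 0 := by
    intro h0
    obtain ⟨j, hj⟩ := hy
    have h4 := hj₀ j (Finset.mem_univ j)
    rw [h0, map_zero, nonpos_iff_eq_zero, map_eq_zero] at h4
    exact hj h4
  set μ : K := (MvPolynomial.eval x (y j₀))⁻¹ with hl
  have hvle : ∀ j, w.valuation K (μ * MvPolynomial.eval x (y j)) ≤ 1 := by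
    intro j
    rw [hl, map_mul, map_inv₀]
    have h4 : w.valuation K (MvPolynomial.eval x (y j₀)) ≠ 0 := by
      rw [Ne, map_eq_zero]
      exact hj1
    rw [inv_mul_le_iff₀ (zero_lt_iff.2 h4), mul_one]
    exact hj₀ j (Finset.mem_univ j)
  have hone : μ * MvPolynomial.eval x (y j₀) = 1 := by rw [hl, inv_mul_cancel₀ hj1]
  set φ := ev (x 0) (fun j => μ * MvPolynomial.eval x (y j)) with hφ
  have hX : φ (MvPolynomial.X j₀) = 1 := by
    rw [hφ, ev, MvPolynomial.coe_eval₂Hom, MvPolynomial.eval₂_X]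
    exact hone
  have hC : φ (MvPolynomial.C g) = g.eval (x 0) := by
    rw [hφ, ev, MvPolynomial.coe_eval₂Hom, MvPolynomial.eval₂_C]
    rfl
  by_cases hcase : ∃ i, w.valuation K (φ (F i)) = 1
  · obtain ⟨i, hi⟩ := hcase
    have hFi : φ (F i) ≠ 0 := by
      intro h0
      rw [h0, map_zero] at hi
      exact zero_ne_one hi
    have hFl : φ (F i ^ l i) ≠ 0 := by
      rw [map_pow]
      exact pow_ne_zero _ hFi
    have hFlv : w.valuation K (φ (F i ^ l i)) = 1 := by
      rw [map_pow, map_pow, hi, one_pow]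
    refine ⟨i, φ (T i) / φ (F i ^ l i), ?_, ?_⟩
    · rw [map_div₀, hFlv, div_one]
      exact hT i (x 0) _ hx0 hvle
    · have h5 := Rel.eval (h1 i) hx μ
      change φ _ = 0 at h5
      rw [map_sub, map_mul, map_mul, map_pow, hC, sub_eq_zero] at h5
      have h6 := ev_homval (x 0) (fun j => μ * MvPolynomial.eval x (y j)) (ψ i) (T i) (F i ^ l i)
        hFl
      rw [← hφ] at h6
      rw [h6] at h5
      have h7 := congrArg (w.valuation K) h5
      rw [map_mul, map_mul, map_mul, map_pow, map_pow, hi, hFlv, one_pow, one_pow, one_mul,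
        one_mul] at h7
      rw [h7]
      exact (mul_le_mul' le_rfl (hZ i (x 0) _ hx0 hvle)).trans_lt ((mul_one _).trans_lt hlt)
  · exfalso
    push Not at hcase
    have hFlt : ∀ i, w.valuation K (φ (F i)) < 1 := fun i =>
      lt_of_le_of_ne (hF i (x 0) _ hx0 hvle) (hcase i)
    obtain ⟨t', ht'⟩ : ∃ t, w.valuation K (φ (D t)) = 1 := by
      by_contra hcon
      push Not at hcon
      have h5 := s4 j₀ w (hb4 j₀) x μ hx hvle hx0 hlt (by
        rintro (i | t)
        · exact hFlt i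
        · exact lt_of_le_of_ne (hD t (x 0) _ hx0 hvle) (hcon t))
      change w.valuation K (φ _) < 1 at h5
      rw [map_pow, hX, one_pow, map_one] at h5
      exact lt_irrefl _ h5
    obtain ⟨t, ht, hmin⟩ : ∃ t, w.valuation K (φ (D t)) = 1 ∧
        ∀ t'' < t, w.valuation K (φ (D t'')) < 1 := by
      obtain ⟨t, ht, hmin⟩ := WellFounded.has_min (wellFounded_lt (α := Fin r))
        {t | w.valuation K (φ (D t)) = 1} ⟨t', ht'⟩
      exact ⟨t, ht, fun t'' htt => lt_of_le_of_ne (hD t'' (x 0) _ hx0 hvle)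
        fun h5 => hmin t'' h5 htt⟩
    have hFDlt : ∀ i : Fin s ⊕ {t' // t' < t},
        w.valuation K (φ (Sum.elim F (fun t' : {t' // t' < t} => D t') i)) < 1 := by
      rintro (i | t'')
      · exact hFlt i
      · exact hmin _ t''.2
    have hAlt : ∀ q, w.valuation K (φ (A t q)) < 1 := by
      intro q
      have h5 := s3 t q w (hb3 t q) x μ hx hvle hx0 hlt hFDlt
      change w.valuation K (φ _) < 1 at h5
      rw [map_pow, map_pow, map_mul, map_mul, ht, one_mul] at h5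
      by_contra hcon
      rw [not_lt] at hcon
      exact absurd h5 (not_lt.2 (one_le_pow_of_one_le' hcon _))
    have hBlt : ∀ q, w.valuation K (φ (B t q)) < 1 := by
      intro q
      have h5 := s3' t q w (hb3' t q) x μ hx hvle hx0 hlt hFDlt
      change w.valuation K (φ _) < 1 at h5
      rw [map_pow, map_pow, map_mul, map_mul, ht, one_mul] at h5
      by_contra hcon
      rw [not_lt] at hcon
      exact absurd h5 (not_lt.2 (one_le_pow_of_one_le' hcon _))
    have h5 := Rel.eval (h2 t) hx μ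
    change φ _ = 0 at h5
    rw [map_sub, map_mul, map_pow, hC, map_sum, sub_eq_zero] at h5
    have h6 : w.valuation K (∑ q, φ (A t q * B t q)) < WithZero.exp (-1) := by
      refine (w.valuation K).map_sum_lt WithZero.exp_ne_zero fun q _ => ?_
      rw [map_mul, map_mul]
      refine (mul_le_mul' (le_exp_neg_one (hAlt q)) (le_exp_neg_one (hBlt q))).trans_lt ?_
      rw [← WithZero.exp_add, WithZero.exp_lt_exp]
      norm_num
    rw [← h5, map_mul, map_pow, ht, one_pow, one_mul, hgv] at h6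
    exact lt_irrefl _ h6

end places

end Pool.Agent.Q57.MF
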