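import Pool.Agent.Q57.MF.Sel

/-!
# Components without multiple fibres
-/

set_option autoImplicit false

namespace Pool.Agent.Q57.MF

open Polynomial NumberField IsDedekindDomain Pool.Agent.TH783.CE Pool.Agent.Q312.PR

variable {K : Type} [Field K] {n : ℕ}

/-- `W` is the set of zeros of `P` in the space with the coordinates `a = x 0, x 1, …, x n`. For some
polynomials `y 0, …, y N` in these coordinates, not all of them zero on `W`, let `W'` be the closure in
`𝔸¹ × ℙ^N` of the set of the points `(a, y)`, `x ∈ W`. Near the zeros of `g (a)` the function `g (a)` is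
on `W'` locally a unit times the `d`-th power of a regular function: for some `F i`, `i < s`, which have
no common zero with `g (a)` on `W'` (last condition), the function `g (a)` is, where `F i ≠ 0`, of
this form (first condition), with a unit `U i` (second condition). So over the zeros of `g` the family
`W' → 𝔸¹` has multiple fibres, whose multiplicities are divisible by `d`. -/
def MultipleFibre (P : Ideal (MvPolynomial (Fin (n + 1)) K)) (g : K[X]) (d : ℕ) : Prop :=
  ∃ (N : ℕ) (y : Fin (N + 1) → MvPolynomial (Fin (n + 1)) K), (∃ j, y j ∉ P) ∧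
    ∃ (s : ℕ) (F U V H : Fin s → MvPolynomial (Fin (N + 1)) K[X]),
      (∀ i, ∃ k, Rel P y (MvPolynomial.C g * F i ^ k - U i * H i ^ d)) ∧
      (∀ i, ∃ k, Rel P y (U i * V i - F i ^ k)) ∧
      ∀ j, ∃ M, MvPolynomial.X j ^ M ∈
        Ideal.span {G | Rel P y G} ⊔ Ideal.span {MvPolynomial.C g} ⊔ Ideal.span (Set.range F)

variable [NumberField K]

theorem thin_of_multiple {P : Ideal (MvPolynomial (Fin (n + 1)) K)} {g : K[X]} {d : ℕ}
    (hg : Squarefree g) (hg' : 0 < g.natDegree) (hd : 2 ≤ d) (h : MultipleFibre P g d) :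
    ∃ w ∉ P, Thin {a : K | ∃ x : Fin (n + 1) → K, (∀ f ∈ P, MvPolynomial.eval x f = 0) ∧
      MvPolynomial.eval x w ≠ 0 ∧ (∃ r : 𝓞 K, (r : K) = x 0) ∧ x 0 = a} := by
  classical
  obtain ⟨N, y, ⟨j, hj⟩, s, F, U, V, H, h1, h2, h3⟩ := h
  obtain ⟨B, hB, hdvd⟩ := exists_bad h1 h2 h3
  obtain ⟨R, hR, hsel⟩ := selmer_set (K := K) (d := d) (by omega) hB
  refine ⟨y j, hj, ?_⟩
  have hroots : Thin {a : K | g.IsRoot a} := by
    refine Thin.of_finite ?_
    have hg0 : g ≠ 0 := hg.ne_zero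
    refine (g.roots.toFinset.finite_toSet).subset ?_
    intro a ha
    simp [hg0]
    exact ha
  have hun : Thin (⋃ u ∈ R, {a : K | ∃ t, g.eval a = (u : K) * t ^ d}) :=
    Thin.biUnion hR fun u _ => thin_pow hg hg' hd u.ne_zero
  refine (hroots.union hun).mono ?_
  rintro a ⟨x, hx, hxj, ⟨r, hr⟩, rfl⟩
  by_cases ha : g.eval (x 0) = 0
  · exact Or.inl ha
  · right
    obtain ⟨u, hu, t, ht⟩ := hsel (Units.mk0 _ ha) fun w hw =>
      hdvd w hw x hx ⟨j, hxj⟩ (by rw [← hr]; exact w.valuation_le_one (K := K) r) ha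
    refine Set.mem_biUnion hu ⟨(t : K), ?_⟩
    have h4 := congrArg Units.val ht
    rwa [Units.val_mk0, Units.val_mul, Units.val_pow_eq_pow_val] at h4

theorem no_multiple {S : Set (Fin (n + 1) → K)} {P : Ideal (MvPolynomial (Fin (n + 1)) K)}
    (hP : Max {x | x ∈ S ∧ ∃ r : 𝓞 K, (r : K) = x 0} P) {g : K[X]} {d : ℕ} (hg : Squarefree g)
    (hg' : 0 < g.natDegree) (hd : 2 ≤ d) : ¬ MultipleFibre P g d := by
  intro h
  obtain ⟨w, hw, hthin⟩ := thin_of_multiple hg hg' hd h
  refine hP.cut hw (hthin.mono ?_)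
  rintro a ⟨x, ⟨-, hx⟩, hx', hxw, rfl⟩
  exact ⟨x, hx', hxw, hx, rfl⟩

end Pool.Agent.Q57.MF
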