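import Pool.Agent.H374R2.BealDens

/-!
# Sets of natural numbers of density zero
-/

set_option autoImplicit false

namespace Pool.Agent.Q57.MF

open Finset Pool.Agent.H374R2.Beal

/-- the set of natural numbers has density zero -/
def Null (A : Set ℕ) : Prop :=
  ∀ ε : ℝ, 0 < ε → ∃ L : ℕ, ∀ X : ℕ, L ≤ X → ((A ∩ Set.Ioc 0 X).ncard : ℝ) ≤ ε * X

theorem Null.mono {A B : Set ℕ} (h : Null B) (hAB : A ⊆ B) : Null A := by
  intro ε hε
  obtain ⟨L, hL⟩ := h ε hε
  refine ⟨L, fun X hX => le_trans ?_ (hL X hX)⟩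
  exact_mod_cast Set.ncard_le_ncard (Set.inter_subset_inter_left _ hAB)
    ((Set.finite_Ioc 0 X).subset Set.inter_subset_right)

theorem Null.union {A B : Set ℕ} (h : Null A) (h' : Null B) : Null (A ∪ B) := by
  intro ε hε
  obtain ⟨L, hL⟩ := h (ε / 2) (by positivity)
  obtain ⟨L', hL'⟩ := h' (ε / 2) (by positivity)
  refine ⟨max L L', fun X hX => ?_⟩
  have h1 := hL X ((le_max_left _ _).trans hX)
  have h2 := hL' X ((le_max_right _ _).trans hX)
  rw [Set.union_inter_distrib_right]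
  have h3 : (((A ∩ Set.Ioc 0 X) ∪ (B ∩ Set.Ioc 0 X)).ncard : ℝ) ≤
      (A ∩ Set.Ioc 0 X).ncard + (B ∩ Set.Ioc 0 X).ncard := by
    exact_mod_cast Set.ncard_union_le _ _
  linarith

theorem Null.of_finite {A : Set ℕ} (h : A.Finite) : Null A := by
  intro ε hε
  obtain ⟨L, hL⟩ := exists_nat_gt ((A.ncard : ℝ) / ε)
  refine ⟨L, fun X hX => ?_⟩
  have h1 : ((A ∩ Set.Ioc 0 X).ncard : ℝ) ≤ A.ncard := by
    exact_mod_cast Set.ncard_le_ncard Set.inter_subset_left h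
  have h2 : (L : ℝ) ≤ X := by exact_mod_cast hX
  rw [div_lt_iff₀ hε] at hL
  nlinarith

theorem Null.biUnion {α : Type*} {s : Set α} (hs : s.Finite) {D : α → Set ℕ}
    (h : ∀ a ∈ s, Null (D a)) : Null (⋃ a ∈ s, D a) := by
  induction s, hs using Set.Finite.induction_on with
  | empty =>
    refine Null.of_finite ?_
    simp
  | insert ha hs ih =>
    rw [Set.biUnion_insert]
    exact (h _ (Set.mem_insert _ _)).union (ih fun b hb => h b (Set.mem_insert_of_mem _ hb))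

/-- the set of all natural numbers is not null -/
theorem not_null_univ : ¬ Null Set.univ := by
  intro h
  obtain ⟨L, hL⟩ := h (1 / 2) (by norm_num)
  have h1 := hL (L + 1) (by omega)
  rw [Set.univ_inter] at h1
  have h2 : ((Set.Ioc 0 (L + 1) : Set ℕ).ncard) = L + 1 := by
    rw [← Finset.coe_Ioc, Set.ncard_coe_finset, Nat.card_Ioc]
    omega
  rw [h2] at h1
  push_cast at h1
  have h3 : (0 : ℝ) ≤ L := Nat.cast_nonneg L
  linarith

/-- If `∑ 1 / p` over the set of primes `R` diverges and if `Ω p`, for `p ∈ R`, are sets of at least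
`p - 1` residue classes modulo `p ^ 2` then the set of the numbers which are in none of these classes
has density zero. -/
theorem null_of_classes (R : Set ℕ) (hR : ∀ r ∈ R, r.Prime)
    (hdiv : ¬ Summable (fun r : ℕ => R.indicator (fun n : ℕ => (1 : ℝ) / n) r))
    (Ω : ∀ r : ℕ, Finset (ZMod (r ^ 2))) (hΩ : ∀ r ∈ R, r - 1 ≤ (Ω r).card) :
    Null {a : ℕ | ∀ r ∈ R, (a : ZMod (r ^ 2)) ∉ Ω r} := by
  classical
  intro ε hε
  obtain ⟨F, hFR, hF⟩ : ∃ F : Finset ℕ, (∀ r ∈ F, r ∈ R) ∧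
      Real.exp (-(1 / 2 * ∑ r ∈ F, (1 : ℝ) / r)) ≤ ε / 2 := by
    have h1 : ∃ F : Finset ℕ, (-Real.log (ε / 2)) / (1 / 2) ≤
        ∑ r ∈ F, R.indicator (fun n : ℕ => (1 : ℝ) / n) r := by
      by_contra hcon
      push Not at hcon
      apply hdiv
      refine summable_of_sum_le (c := (-Real.log (ε / 2)) / (1 / 2)) ?_ ?_
      · intro r
        apply Set.indicator_nonneg
        intro n _
        positivity
      · intro F
        exact (hcon F).le
    obtain ⟨F, hF⟩ := h1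
    refine ⟨F.filter (fun r => r ∈ R), fun r hr => (Finset.mem_filter.mp hr).2, ?_⟩
    have h2 : ∑ r ∈ F, R.indicator (fun n : ℕ => (1 : ℝ) / n) r =
        ∑ r ∈ F.filter (fun r => r ∈ R), (1 : ℝ) / r := by
      rw [Finset.sum_filter]
      apply Finset.sum_congr rfl
      intro r _
      rw [Set.indicator_apply]
    rw [h2, div_le_iff₀ (by norm_num)] at hF
    have h3 : -(1 / 2 * ∑ r ∈ F.filter (fun r => r ∈ R), (1 : ℝ) / r) ≤ Real.log (ε / 2) := by
      linarith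
    calc _ ≤ Real.exp (Real.log (ε / 2)) := Real.exp_le_exp.mpr h3
      _ = ε / 2 := Real.exp_log (by positivity)
  have hpr : ∀ i : F, ((i : ℕ)).Prime := fun i => hR _ (hFR _ i.2)
  have hco : Pairwise fun i j : F => Nat.Coprime ((i : ℕ) ^ 2) ((j : ℕ) ^ 2) := by
    intro i j hij
    exact Nat.Coprime.pow 2 2
      ((Nat.coprime_primes (hpr i) (hpr j)).mpr (fun h => hij (Subtype.ext h)))
  have : ∀ i : F, NeZero ((i : ℕ) ^ 2) := fun i => ⟨pow_ne_zero 2 (hpr i).ne_zero⟩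
  let S : ∀ i : F, Finset (ZMod ((i : ℕ) ^ 2)) := fun i =>
    Finset.univ.filter (fun z => z ∉ Ω i)
  obtain ⟨M, hM, B, hBcard, hB⟩ := crt_count (fun i : F => (i : ℕ) ^ 2) hco (fun i => S i ×ˢ {0})
  have hMpos : 0 < M := hM ▸ Finset.prod_pos (fun i _ => pow_pos (hpr i).pos 2)
  have hMR : (0 : ℝ) < M := by exact_mod_cast hMpos
  have hS : ∀ i : F, ((S i).card : ℝ) ≤ (i : ℝ) ^ 2 * Real.exp (-(1 / 2 * ((1 : ℝ) / (i : ℕ)))) := by
    intro i
    have hi0 : (0 : ℝ) < ((i : ℕ) : ℝ) := by exact_mod_cast (hpr i).pos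
    have hi2 : (2 : ℝ) ≤ ((i : ℕ) : ℝ) := by exact_mod_cast (hpr i).two_le
    have h1 : (i : ℕ) - 1 ≤ ((Finset.univ : Finset (ZMod ((i : ℕ) ^ 2))).filter
        (fun z => z ∈ Ω i)).card := by
      have h2 : (Finset.univ : Finset (ZMod ((i : ℕ) ^ 2))).filter (fun z => z ∈ Ω i) = Ω i := by
        ext z
        simp
      rw [h2]
      exact hΩ i (hFR i i.2)
    have h3 := Finset.card_filter_add_card_filter_not (s := (Finset.univ : Finset (ZMod ((i : ℕ) ^ 2))))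
      (fun z => z ∈ Ω i)
    rw [Finset.card_univ, ZMod.card] at h3
    have h4 : ((S i).card : ℝ) ≤ (i : ℝ) ^ 2 - (i - 1) := by
      have h5 : ((((i : ℕ) - 1 : ℕ) + (S i).card : ℕ) : ℝ) ≤ ((((i : ℕ) ^ 2 : ℕ)) : ℝ) := by
        exact_mod_cast (Nat.add_le_add_right h1 _).trans h3.le
      rw [Nat.cast_add, Nat.cast_sub (hpr i).one_lt.le] at h5
      push_cast at h5
      linarith
    have h6 := Real.add_one_le_exp (-(1 / 2 * ((1 : ℝ) / (i : ℕ))))
    have h7 : (i : ℝ) ^ 2 * (-(1 / 2 * ((1 : ℝ) / (i : ℕ))) + 1) ≤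
        (i : ℝ) ^ 2 * Real.exp (-(1 / 2 * ((1 : ℝ) / (i : ℕ)))) :=
      mul_le_mul_of_nonneg_left h6 (by positivity)
    have h8 : (i : ℝ) ^ 2 * (-(1 / 2 * ((1 : ℝ) / (i : ℕ))) + 1) = (i : ℝ) ^ 2 - 1 / 2 * i := by
      field_simp
      ring
    linarith
  set B₁ := B.image Prod.fst with hB₁
  have hBle : (B₁.card : ℝ) ≤ (M : ℝ) * (ε / 2) := by
    have h0 : (B₁.card : ℝ) ≤ B.card := by exact_mod_cast Finset.card_image_le
    refine h0.trans ?_
    rw [hBcard]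
    push_cast
    calc ∏ i : F, (((S i ×ˢ {0} : Finset (ZMod ((i : ℕ) ^ 2) × ZMod ((i : ℕ) ^ 2)))).card : ℝ)
        = ∏ i : F, ((S i).card : ℝ) := by
          refine Finset.prod_congr rfl fun i _ => ?_
          rw [Finset.card_product, Finset.card_singleton, mul_one]
      _ ≤ ∏ i : F, ((i : ℝ) ^ 2 * Real.exp (-(1 / 2 * ((1 : ℝ) / (i : ℕ))))) :=
          Finset.prod_le_prod (fun i _ => by positivity) (fun i _ => hS i)
      _ = (M : ℝ) * Real.exp (-(1 / 2 * ∑ r ∈ F, (1 : ℝ) / r)) := by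
          rw [Finset.prod_mul_distrib, hM]
          push_cast
          congr 1
          rw [← Real.exp_sum, Finset.sum_neg_distrib, ← Finset.mul_sum]
          congr 3
          exact Finset.sum_coe_sort F (fun r : ℕ => (1 : ℝ) / r)
      _ ≤ _ := mul_le_mul_of_nonneg_left hF (by positivity)
  refine ⟨M, fun X hX => ?_⟩
  have h1 : ({a : ℕ | ∀ r ∈ R, (a : ZMod (r ^ 2)) ∉ Ω r} ∩ Set.Ioc 0 X) ⊆ ((B₁.biUnion fun c =>
        (Finset.Ioc 0 (0 + X)).filter (fun n : ℕ => (n : ZMod M) = c) : Finset ℕ) : Set ℕ) := by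
    rintro a ⟨ha, ha'⟩
    rw [Set.mem_Ioc] at ha'
    simp only [Finset.coe_biUnion, Set.mem_iUnion, Finset.mem_coe, Finset.mem_filter,
      Finset.mem_Ioc]
    refine ⟨(a : ZMod M), ?_, ⟨ha'.1, by omega⟩, rfl⟩
    rw [hB₁, Finset.mem_image]
    refine ⟨((a : ZMod M), ((0 : ℕ) : ZMod M)), hB a 0 (fun i => ?_), rfl⟩
    rw [Finset.mem_product, Finset.mem_singleton, Nat.cast_zero]
    exact ⟨mem_filter.2 ⟨mem_univ _, ha i (hFR i i.2)⟩, rfl⟩
  have h2 : (((X / M + 1 : ℕ)) : ℝ) ≤ 2 * X / M := by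
    have h3 : ((X / M : ℕ) : ℝ) ≤ X / M := Nat.cast_div_le
    have h4 : (1 : ℝ) ≤ X / M := by
      rw [le_div_iff₀ hMR, one_mul]; exact_mod_cast hX
    push_cast
    have : (2 : ℝ) * X / M = X / M + X / M := by ring
    linarith
  have h3 : (({a : ℕ | ∀ r ∈ R, (a : ZMod (r ^ 2)) ∉ Ω r} ∩ Set.Ioc 0 X).ncard) ≤
      B₁.card * (X / M + 1) := by
    calc _ ≤ _ := Set.ncard_le_ncard h1 (Finset.finite_toSet _)
      _ = _ := Set.ncard_coe_finset _
      _ ≤ ∑ c ∈ B₁, ((Finset.Ioc 0 (0 + X)).filter (fun n : ℕ => (n : ZMod M) = c)).card :=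
          Finset.card_biUnion_le
      _ ≤ ∑ c ∈ B₁, (X / M + 1) := Finset.sum_le_sum fun c _ => card_class_le M hMpos 0 X c
      _ = _ := by rw [Finset.sum_const, smul_eq_mul]
  calc _ ≤ ((B₁.card * (X / M + 1) : ℕ) : ℝ) := by exact_mod_cast h3
    _ = (B₁.card : ℝ) * ((X / M + 1 : ℕ) : ℝ) := by push_cast; ring
    _ ≤ ((M : ℝ) * (ε / 2)) * (2 * X / M) :=
        mul_le_mul hBle h2 (Nat.cast_nonneg _) (by positivity)
    _ = ε * X := by field_simp

end Pool.Agent.Q57.MF
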