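import Pool.Agent.Q57.MF.Cls
import Pool.Agent.Q57.MF.Sieve

/-!
# Components with pseudo-split fibres
-/

set_option autoImplicit false

namespace Pool.Agent.Q57.MF

open Polynomial NumberField IsDedekindDomain Pool.Agent.Q312.PR

section minimal

variable {K : Type} [Field K] {n : ℕ}

/-- the natural numbers which are first coordinates of points of `S` at which all elements of `I`
vanish -/
def projN (S : Set (Fin (n + 1) → K)) (I : Ideal (MvPolynomial (Fin (n + 1)) K)) : Set ℕ :=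
  {a | ∃ x ∈ S, (∀ f ∈ I, MvPolynomial.eval x f = 0) ∧ x 0 = (a : K)}

/-- the maximal ideal `P` among those for which this set does not have density zero -/
structure MaxN (S : Set (Fin (n + 1) → K)) (P : Ideal (MvPolynomial (Fin (n + 1)) K)) : Prop where
  not_null : ¬ Null (projN S P)
  null : ∀ J, P < J → Null (projN S J)

theorem exists_maxN (S : Set (Fin (n + 1) → K)) (h : ¬ Null {a : ℕ | ∃ x ∈ S, x 0 = (a : K)}) :
    ∃ P : Ideal (MvPolynomial (Fin (n + 1)) K), MaxN S P := by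
  have h0 : ¬ Null (projN S (⊥ : Ideal (MvPolynomial (Fin (n + 1)) K))) := by
    intro hcon
    refine h (hcon.mono ?_)
    rintro a ⟨x, hx, hx0⟩
    exact ⟨x, hx, fun f hf => by rw [Ideal.mem_bot.1 hf, map_zero], hx0⟩
  obtain ⟨P, hP, hP'⟩ := WellFounded.has_min
    (wellFounded_gt (α := Ideal (MvPolynomial (Fin (n + 1)) K)))
    {I | ¬ Null (projN S I)} ⟨⊥, h0⟩
  exact ⟨P, hP, fun J hJ => by_contra fun hcon => hP' J hcon hJ⟩

namespace MaxN

variable {S : Set (Fin (n + 1) → K)} {P : Ideal (MvPolynomial (Fin (n + 1)) K)}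

theorem lt_sup {f : MvPolynomial (Fin (n + 1)) K} (hf : f ∉ P) : P < P ⊔ Ideal.span {f} := by
  refine lt_of_le_of_ne le_sup_left fun h => hf ?_
  rw [h]
  exact Ideal.mem_sup_right (Ideal.mem_span_singleton_self f)

theorem vanish_sup {f : MvPolynomial (Fin (n + 1)) K} {x : Fin (n + 1) → K}
    (hP : ∀ g ∈ P, MvPolynomial.eval x g = 0) (hf : MvPolynomial.eval x f = 0) :
    ∀ g ∈ P ⊔ Ideal.span {f}, MvPolynomial.eval x g = 0 := by
  intro g hg
  obtain ⟨a, ha, b, hb, rfl⟩ := Submodule.mem_sup.1 hg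
  obtain ⟨c, rfl⟩ := Ideal.mem_span_singleton'.1 hb
  rw [map_add, hP a ha, map_mul, hf, mul_zero, add_zero]

theorem dense (h : MaxN S P) (f : MvPolynomial (Fin (n + 1)) K)
    (hf : ∀ x ∈ S, (∃ a : ℕ, x 0 = (a : K)) → (∀ g ∈ P, MvPolynomial.eval x g = 0) →
      MvPolynomial.eval x f = 0) : f ∈ P := by
  by_contra hcon
  refine h.not_null ((h.null _ (lt_sup hcon)).mono ?_)
  rintro a ⟨x, hx, hx', hx0⟩
  exact ⟨x, hx, vanish_sup hx' (hf x hx ⟨a, hx0⟩ hx'), hx0⟩

theorem cut (h : MaxN S P) {w : MvPolynomial (Fin (n + 1)) K} (hw : w ∉ P) :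
    ¬ Null {a : ℕ | ∃ x ∈ S, (∀ g ∈ P, MvPolynomial.eval x g = 0) ∧ MvPolynomial.eval x w ≠ 0 ∧
      x 0 = (a : K)} := by
  intro hcon
  refine h.not_null ((hcon.union (h.null _ (lt_sup hw))).mono ?_)
  rintro a ⟨x, hx, hx', hx0⟩
  by_cases hxw : MvPolynomial.eval x w = 0
  · exact Or.inr ⟨x, hx, vanish_sup hx' hxw, hx0⟩
  · exact Or.inl ⟨x, hx, hx', hxw, hx0⟩

theorem isPrime (h : MaxN S P) : P.IsPrime := by
  refine ⟨?_, ?_⟩
  · rintro rfl
    refine h.not_null (Null.of_finite ?_)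
    convert Set.finite_empty
    refine Set.eq_empty_of_forall_notMem ?_
    rintro a ⟨x, -, hx, -⟩
    have h1 := hx 1 trivial
    rw [map_one] at h1
    exact one_ne_zero h1
  · intro f g hfg
    by_contra hcon
    push Not at hcon
    refine h.not_null (((h.null _ (lt_sup hcon.1)).union (h.null _ (lt_sup hcon.2))).mono ?_)
    rintro a ⟨x, hx, hx', hx0⟩
    have h1 := hx' _ hfg
    rw [map_mul, mul_eq_zero] at h1
    rcases h1 with h1 | h1
    · exact Or.inl ⟨x, hx, vanish_sup hx' h1, hx0⟩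
    · exact Or.inr ⟨x, hx, vanish_sup hx' h1, hx0⟩

end MaxN

end minimal

section places

variable {K : Type} [Field K] [NumberField K] {n : ℕ}

theorem val_evalEval_sub {w : HeightOneSpectrum (𝓞 K)} {ψ : K[X][X]}
    (hψ : ∀ j ∈ Finset.range (ψ.natDegree + 1), IntCoeff w (ψ.coeff j)) {a b θ : K}
    (ha : w.valuation K a ≤ 1) (hb : w.valuation K b ≤ 1) (hθ : w.valuation K θ ≤ 1) :
    w.valuation K (ψ.evalEval a θ - ψ.evalEval b θ) ≤ w.valuation K (a - b) := by
  rw [evalEval_eq_sum, evalEval_eq_sum, ← Finset.sum_sub_distrib]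
  refine (w.valuation K).map_sum_le fun j hj => ?_
  rw [← sub_mul, map_mul, map_pow]
  exact (mul_le_mul' (val_eval_sub (hψ j hj) ha hb) (pow_le_one' hθ j)).trans (mul_one _).le

/-- There is a set `R` of primes `p`, with `∑ 1 / p` divergent, such that each of them has an unramified
place `w` of `K` above it with the following property: `g` has a simple zero `z` modulo `w`, a rational
integer, such that none of the polynomials `ψ i (z, Y)` in `Y` has a zero modulo `w` in `K`. -/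
def ManyWithoutZero {s : ℕ} (g : K[X]) (ψ : Fin s → K[X][X]) : Prop :=
  ∃ R : Set ℕ, (∀ p ∈ R, p.Prime) ∧
    (¬ Summable fun k : ℕ => R.indicator (fun k : ℕ => (1 : ℝ) / k) k) ∧
    ∀ p ∈ R, ∃ (w : HeightOneSpectrum (𝓞 K)) (z : ℤ), w.valuation K (p : K) = WithZero.exp (-1) ∧
      w.valuation K (g.eval (z : K)) < 1 ∧ w.valuation K ((derivative g).eval (z : K)) = 1 ∧
      ∀ i, ∀ θ : K, w.valuation K θ ≤ 1 → ¬ w.valuation K ((ψ i).evalEval (z : K) θ) < 1

/-- `W` is the set of zeros of `P` in the space with the coordinates `a = x 0, x 1, …, x n`, and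
`y 0, …, y N` are polynomials in these coordinates. Let `W'` be the closure in `𝔸¹ × ℙ^N` of the set of
the points `(a, y)`, `x ∈ W`, `y ≠ 0`. The fibre of `W'` over the closed point `g (a) = 0` of the
`a`-line is divided into the following subsets. On the open sets `F i ≠ 0` of the fibre the regular
function `T i / F i ^ l i` is a zero of the polynomial `ψ i (a, Y)` (first condition). At the points
with `F = 0`, `D t' = 0` for `t' < t`, and `D t ≠ 0`, the function `g (a)` on `W'` is a sum of products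
`A t q * B t q` of functions which vanish at these points of the fibre (the next three conditions).
There are no other points in the fibre (last but one condition), and for many primes there is a
simple zero `z` of `g`, modulo the prime, such that no `ψ i (z, Y)` has a zero.

So over these zeros modulo the prime the fibre has no rational points at which it is smooth: the fibre
is not pseudo-split, in particular not split. -/
def NonPseudoSplit {N : ℕ} (P : Ideal (MvPolynomial (Fin (n + 1)) K))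
    (y : Fin (N + 1) → MvPolynomial (Fin (n + 1)) K) (g : K[X]) : Prop :=
  ∃ (s r u : ℕ) (F T Z : Fin s → MvPolynomial (Fin (N + 1)) K[X]) (ψ : Fin s → K[X][X])
    (l : Fin s → ℕ) (D : Fin r → MvPolynomial (Fin (N + 1)) K[X])
    (A B : Fin r → Fin u → MvPolynomial (Fin (N + 1)) K[X]),
    (∀ i, ∃ k, Rel P y (F i ^ k * homval (ψ i) (T i) (F i ^ l i) - MvPolynomial.C g * Z i)) ∧
    (∀ t, ∃ k, Rel P y (D t ^ k * MvPolynomial.C g - ∑ q, A t q * B t q)) ∧
    (∀ t q, ∃ k, (D t * A t q) ^ k ∈ Ideal.span {G | Rel P y G} ⊔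
      Ideal.span {MvPolynomial.C g} ⊔ Ideal.span (Set.range F ∪ D '' Set.Iio t)) ∧
    (∀ t q, ∃ k, (D t * B t q) ^ k ∈ Ideal.span {G | Rel P y G} ⊔
      Ideal.span {MvPolynomial.C g} ⊔ Ideal.span (Set.range F ∪ D '' Set.Iio t)) ∧
    (∀ j, ∃ M, MvPolynomial.X j ^ M ∈ Ideal.span {G | Rel P y G} ⊔
      Ideal.span {MvPolynomial.C g} ⊔ Ideal.span (Set.range F ∪ Set.range D)) ∧
    ManyWithoutZero g ψ

/-- For some polynomials `y 0, …, y N`, not all of them zero on the set `W` of the zeros of `P`, the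
fibre of the closure `W'` over the closed point `g (a) = 0` is not pseudo-split. -/
def NonPseudoSplitFibre (P : Ideal (MvPolynomial (Fin (n + 1)) K)) (g : K[X]) : Prop :=
  ∃ (N : ℕ) (y : Fin (N + 1) → MvPolynomial (Fin (n + 1)) K), (∃ j, y j ∉ P) ∧
    NonPseudoSplit P y g

/-- `A` is contained in the set of the `a` for which the member over `a` of a family in `𝔸¹ × ℙ^N` with
a fibre over a closed point `g = 0` which is not pseudo-split has a `K`-point `y`. (The family is the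
set of zeros of `P` in the coordinates `a = x 0` and `y j = x (j + 1)`.) -/
def InNonSplitFamily (A : Set K) : Prop :=
  ∃ (N : ℕ) (P : Ideal (MvPolynomial (Fin (N + 1 + 1)) K)) (g : K[X]),
    NonPseudoSplit P (fun j : Fin (N + 1) => MvPolynomial.X j.succ) g ∧
    ∀ a ∈ A, ∃ y : Fin (N + 1) → K, y ≠ 0 ∧ ∀ f ∈ P, MvPolynomial.eval (Fin.cons a y) f = 0

theorem null_of_nonsplit {N : ℕ} {P : Ideal (MvPolynomial (Fin (n + 1)) K)}
    {y : Fin (N + 1) → MvPolynomial (Fin (n + 1)) K} {g : K[X]} (h : NonPseudoSplit P y g) :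
    Null {a : ℕ | ∃ x : Fin (n + 1) → K, (∀ f ∈ P, MvPolynomial.eval x f = 0) ∧
      (∃ j, MvPolynomial.eval x (y j) ≠ 0) ∧ x 0 = (a : K)} := by
  classical
  obtain ⟨s, r, u, F, T, Z, ψ, l, D, A, B, h1, h2, h3, h3', h4, R, hR, hsum, hw⟩ := h
  obtain ⟨C₁, hC₁, hbad⟩ := exists_bad2 h1 h2 h3 h3' h4
  set C₀ : Set (HeightOneSpectrum (𝓞 K)) := C₁ ∪ {w | ¬ IntCoeff w g} ∪
    ⋃ i, ⋃ m ∈ Finset.range ((ψ i).natDegree + 1), {w | ¬ IntCoeff w ((ψ i).coeff m)} with hC₀def
  have hC₀ : C₀.Finite := by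
    refine (hC₁.union (finite_not_intCoeff g)).union (Set.finite_iUnion fun i => ?_)
    exact Set.Finite.biUnion (Finset.finite_toSet _) fun m _ => finite_not_intCoeff _
  -- the bad primes
  set E : Set ℕ := ⋃ w ∈ C₀, {p | p.Prime ∧ w.valuation K (p : K) < 1} with hE
  have hEfin : E.Finite := by
    refine Set.Finite.biUnion hC₀ fun w _ => Set.Subsingleton.finite ?_
    rintro p ⟨hp, hpw⟩ p' ⟨hp', hpw'⟩
    by_contra hne
    have h5 : ¬ (p : ℤ) ∣ (p' : ℤ) := by
      rw [Int.natCast_dvd_natCast]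
      exact fun h6 => hne ((Nat.prime_dvd_prime_iff_eq hp hp').1 h6)
    have h6 := val_int_eq hp hpw h5
    rw [Int.cast_natCast] at h6
    exact absurd hpw' h6.not_lt
  set R' : Set ℕ := R \ E with hR'
  have hsum' : ¬ Summable fun k : ℕ => R'.indicator (fun k : ℕ => (1 : ℝ) / k) k := by
    intro hs
    refine hsum ?_
    have hfin : Summable fun k : ℕ => (R ∩ E).indicator (fun k : ℕ => (1 : ℝ) / k) k :=
      summable_of_hasFiniteSupport ((hEfin.subset Set.inter_subset_right).subset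
        Set.support_indicator_subset)
    refine (hs.add hfin).congr fun k => ?_
    by_cases hkR : k ∈ R <;> by_cases hkE : k ∈ E <;> simp [hR', hkR, hkE]
  have hΩ : ∀ p : ℕ, ∃ Ω : Finset (ZMod (p ^ 2)), p ∈ R' → (p - 1 ≤ Ω.card ∧
      ∀ a : ℤ, (a : ZMod (p ^ 2)) ∈ Ω → ∃ w ∉ C₁,
        w.valuation K (g.eval (a : K)) = WithZero.exp (-1) ∧
        ∀ i, ∀ θ : K, w.valuation K θ ≤ 1 → ¬ w.valuation K ((ψ i).evalEval (a : K) θ) < 1) := by
    intro p
    by_cases hp : p ∈ R'
    · obtain ⟨w, z, hwp, hz0, hz1, hwψ⟩ := hw p hp.1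
      have hpp := hR p hp.1
      have hlt : w.valuation K (p : K) < 1 := by
        rw [hwp, ← WithZero.exp_zero, WithZero.exp_lt_exp]
        norm_num
      have hwC : w ∉ C₀ := by
        intro hmem
        exact hp.2 (Set.mem_biUnion hmem ⟨hpp, hlt⟩)
      simp only [hC₀def, Set.mem_union, Set.mem_iUnion, Set.mem_ofPred_eq, not_or, not_exists,
        not_not] at hwC
      obtain ⟨⟨hwC₁, hwg⟩, hwc⟩ := hwC
      obtain ⟨Ω, hΩ, hΩ'⟩ := exists_classes hpp hwp hwg hz0 hz1
      refine ⟨Ω, fun _ => ⟨hΩ, fun a ha => ⟨w, hwC₁, (hΩ' a ha).1, fun i θ hθ hlt' => ?_⟩⟩⟩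
      refine hwψ i θ hθ ?_
      have h5 := val_evalEval_sub (ψ := ψ i) (fun j hj => hwc i j hj) (val_int_le w z)
        (val_int_le w a) hθ
      have h6 : w.valuation K ((z : K) - (a : K)) < 1 := by
        rw [(w.valuation K).map_sub_swap]
        exact (hΩ' a ha).2
      have h7 := (w.valuation K).map_add_lt (h5.trans_lt h6) hlt'
      rwa [sub_add_cancel] at h7
    · exact ⟨∅, fun h => absurd h hp⟩
  choose Ω hΩ using hΩ
  refine (null_of_classes R' (fun p hp => hR p hp.1) hsum' Ω fun p hp => (hΩ p hp).1).mono ?_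
  rintro a ⟨x, hx, hxj, hx0⟩ p hp hmem
  obtain ⟨w, hwC₁, hwg, hwψ⟩ := (hΩ p hp).2 (a : ℤ) (by rw [Int.cast_natCast]; exact hmem)
  rw [Int.cast_natCast] at hwg hwψ
  obtain ⟨i, θ, hθ, hθ'⟩ := hbad w hwC₁ x hx hxj
    (by rw [hx0]; exact_mod_cast val_int_le w (a : ℤ)) (by rw [hx0]; exact hwg)
  rw [hx0] at hθ'
  exact hwψ i θ hθ hθ'

theorem no_nonsplit {S : Set (Fin (n + 1) → K)} {P : Ideal (MvPolynomial (Fin (n + 1)) K)}
    (hP : MaxN S P) (g : K[X]) : ¬ NonPseudoSplitFibre P g := by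
  rintro ⟨N, y, ⟨j, hj⟩, h⟩
  refine hP.cut hj ((null_of_nonsplit h).mono ?_)
  rintro a ⟨x, -, hx', hxw, hx0⟩
  exact ⟨x, hx', ⟨j, hxw⟩, hx0⟩

theorem InNonSplitFamily.null {A : Set K} (h : InNonSplitFamily A) :
    Null {a : ℕ | (a : K) ∈ A} := by
  obtain ⟨N, P, g, hP, hA⟩ := h
  refine (null_of_nonsplit hP).mono ?_
  intro a ha
  obtain ⟨y, hy, hy'⟩ := hA a ha
  refine ⟨Fin.cons (a : K) y, hy', ?_, rfl⟩
  by_contra hcon
  push Not at hcon
  refine hy (funext fun j => ?_)
  have h1 := hcon j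
  rw [MvPolynomial.eval_X, Fin.cons_succ] at h1
  exact h1

end places

end Pool.Agent.Q57.MF
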