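import Pool.Agent.Q57.MF.Loc

/-!
# Elements whose valuations are divisible by `d`, and thin sets
-/

set_option autoImplicit false

namespace Pool.Agent.Q57.MF

open Polynomial NumberField IsDedekindDomain Pool.Agent.TH783.CE Pool.Agent.Q312.PR

section sel

variable {K : Type} [Field K] [NumberField K]

/-- representatives of the colours -/
theorem reps {G ι : Type} [Nonempty G] (c : G → ι) (Z : Set G) :
    ∃ f : ι → G, ∀ z ∈ Z, f (c z) ∈ Z ∧ c (f (c z)) = c z := by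
  classical
  have h : ∀ κ : ι, ∃ u : G, (∃ z ∈ Z, c z = κ) → u ∈ Z ∧ c u = κ := by
    intro κ
    by_cases h1 : ∃ z ∈ Z, c z = κ
    · obtain ⟨z, hz, h2⟩ := h1
      exact ⟨z, fun _ => ⟨hz, h2⟩⟩
    · exact ⟨Classical.arbitrary G, fun h2 => absurd h2 h1⟩
  choose f hf using h
  exact ⟨f, fun z hz => hf (c z) ⟨z, hz, rfl⟩⟩

/-- Up to `d`-th powers there are only finitely many elements whose valuations outside of a finite
set are divisible by `d`. -/
theorem selmer_set {d : ℕ} (hd : 0 < d) {B : Set (HeightOneSpectrum (𝓞 K))} (hB : B.Finite) :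
    ∃ R : Set Kˣ, R.Finite ∧ ∀ z : Kˣ, (∀ w ∉ B, (d : ℤ) ∣ H645.ABC.vl w z) →
      ∃ u ∈ R, ∃ t : Kˣ, z = u * t ^ d := by
  classical
  have hne : NeZero d := ⟨hd.ne'⟩
  have hBf : Finite B := hB
  obtain ⟨ι, hι, c, hc⟩ := H645.ABC.selmer (K := K) d hd
  set Z : Set Kˣ := {z | ∀ w ∉ B, (d : ℤ) ∣ H645.ABC.vl w z} with hZ
  set r : Kˣ → (B → ZMod d) := fun z w => (H645.ABC.vl w.1 z : ZMod d) with hr
  have hfin : Finite (B → ZMod d) := inferInstance
  obtain ⟨f₁, hf₁⟩ := reps r Z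
  obtain ⟨f₂, hf₂⟩ := reps (fun z => (r z, c (z / f₁ (r z)))) Z
  refine ⟨Set.range f₂, Set.finite_range f₂, fun z hz => ⟨_, ⟨(r z, c (z / f₁ (r z))), rfl⟩, ?_⟩⟩
  obtain ⟨h1, h2⟩ := hf₂ z hz
  beta_reduce at h1 h2
  set u := f₂ (r z, c (z / f₁ (r z))) with hu
  have h3 : r u = r z := congrArg Prod.fst h2
  have h4 : c (u / f₁ (r u)) = c (z / f₁ (r z)) := congrArg Prod.snd h2
  rw [h3] at h4
  obtain ⟨h5, h6⟩ := hf₁ z hz
  have hdiv : ∀ y : Kˣ, y ∈ Z → r y = r z → ∀ w : HeightOneSpectrum (𝓞 K),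
      (d : ℤ) ∣ H645.ABC.vl w (y / f₁ (r z)) := by
    intro y hy hyr w
    rw [H645.ABC.vl_div]
    by_cases hw : w ∈ B
    · have h7 : r y ⟨w, hw⟩ = r (f₁ (r z)) ⟨w, hw⟩ := by rw [hyr, h6]
      have h8 := (ZMod.intCast_eq_intCast_iff_dvd_sub _ _ d).1 h7
      rw [← dvd_neg, neg_sub] at h8
      exact h8
    · exact dvd_sub (hy w hw) (h5 w hw)
  obtain ⟨t, ht⟩ := hc _ _ (hdiv z hz rfl) (hdiv u h1 h3) h4.symm
  refine ⟨t, ?_⟩
  rw [div_eq_iff_eq_mul] at ht
  rw [ht, mul_right_comm, div_mul_cancel]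

end sel

section thin

variable {K : Type} [Field K] [CharZero K]

theorem thin_pow {g : K[X]} (hg : Squarefree g) (hg' : 0 < g.natDegree) {d : ℕ} (hd : 2 ≤ d) {u : K}
    (hu : u ≠ 0) : Thin {a : K | ∃ t, g.eval a = u * t ^ d} := by
  refine ⟨∅, Set.finite_empty, X ^ d - C (C u⁻¹ * g), monic_X_pow_sub_C _ (by omega), ?_, ?_⟩
  · intro h h0
    rw [Polynomial.eval_sub, eval_pow, eval_X, eval_C, sub_eq_zero] at h0
    have h1 : h * h ∣ g := by
      have h2 : h * h ∣ h ^ d := by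
        rw [← sq]
        exact pow_dvd_pow h hd
      have h3 : g = C u * h ^ d := by
        rw [h0, ← mul_assoc, ← C_mul, mul_inv_cancel₀ hu, C_1, one_mul]
      rw [h3]
      exact h2.mul_left _
    have h2 : IsUnit h := hg h h1
    have h3 : h.natDegree = 0 := natDegree_eq_zero_of_isUnit h2
    have h4 : (h ^ d).natDegree = 0 := by rw [natDegree_pow, h3, mul_zero]
    rw [h0, natDegree_C_mul (inv_ne_zero hu)] at h4
    omega
  · rintro a ⟨t, ht⟩
    refine Or.inr ⟨t, ?_⟩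
    rw [evalEval, Polynomial.eval_sub, eval_pow, eval_X, eval_C, Polynomial.eval_sub, eval_pow,
      eval_C, eval_mul, eval_C,
      ht, ← mul_assoc, inv_mul_cancel₀ hu, one_mul, sub_self]

end thin

end Pool.Agent.Q57.MF
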